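import Pool.Agent.MP_5d0005_an.Gn.Dy

/-! Counting disjoint arcs. -/

set_option autoImplicit false

open Set Real Function Metric Topology

namespace Pool.Agent.MP_5d0005_an.Gn

lemma fam {X : Type} (Cr : Set X → Prop) (T : Bool → X → X) (hT : ∀ b, Injective (T b))
    (mul : ∀ A, Cr A → ∃ b, ∃ B : Fin 3 → Set X, (∀ i, Cr (B i) ∧ B i ⊆ T b '' A) ∧
      Pairwise (Disjoint on B))
    (F : Set X) (hF : F.Finite) (hit : ∀ A, Cr A → ∃ x ∈ A, x ∈ F) (A₀ : Set X) : ¬ Cr A₀ := by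
  intro h0
  have key : ∀ n : ℕ, ∃ (ι : Type) (_ : Finite ι) (A : ι → Set X), n < Nat.card ι ∧
      (∀ i, Cr (A i)) ∧ Pairwise (Disjoint on A) := by
    intro n
    induction n with
    | zero => exact ⟨Unit, inferInstance, fun _ => A₀, by simp, fun _ => h0, Subsingleton.pairwise⟩
    | succ n ih =>
      obtain ⟨ι, _, A, h1, h2, h3⟩ := ih
      choose b B hB hd using fun i => mul _ (h2 i)
      obtain ⟨β, hβ⟩ : ∃ β, Nat.card ι ≤ 2 * Nat.card {i // b i = β} := by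
        have := Nat.card_congr (Equiv.sigmaFiberEquiv b)
        rw [Nat.card_sigma, Fintype.sum_bool] at this
        rcases le_total (Nat.card {i // b i = true}) (Nat.card {i // b i = false}) with h | h
        · exact ⟨false, by omega⟩
        · exact ⟨true, by omega⟩
      refine ⟨{i // b i = β} × Fin 3, inferInstance, fun x => B x.1.1 x.2, ?_,
        fun x => (hB _ _).1, ?_⟩
      · rw [Nat.card_prod, Nat.card_fin]
        omega
      · rintro ⟨⟨i, rfl⟩, j⟩ ⟨⟨i', e⟩, j'⟩ hne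
        by_cases h : i = i'
        · subst h
          exact hd i fun e => hne (Prod.ext rfl e)
        · refine Disjoint.mono (hB i j).2 (hB i' j').2 ?_
          rw [e]
          exact (disjoint_image_iff (hT _)).2 (h3 h)
  obtain ⟨ι, _, A, h1, h2, h3⟩ := key (Nat.card F)
  choose x hx hxF using fun i => hit _ (h2 i)
  have := hF.to_subtype
  refine absurd (Nat.card_le_card_of_injective (fun i => (⟨x i, hxF i⟩ : F)) fun i j e => ?_)
    (not_le.2 h1)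
  by_contra hne
  exact disjoint_left.1 (h3 hne) (hx i) ((Subtype.mk.inj e : x i = x j) ▸ hx j)

lemma sph_fin (z : Circle) (r : ℝ) : (sphere z r).Finite := by
  have h : (Polynomial.X ^ 2 - Polynomial.C ((2 - r ^ 2) * z : ℂ) * Polynomial.X +
      Polynomial.C ((z : ℂ) ^ 2)) ≠ 0 := fun e => by
    simpa [Polynomial.coeff_X, Polynomial.coeff_C, -map_pow, -map_mul] using
      congrArg (Polynomial.coeff · 2) e
  refine Finite.of_finite_image ((Polynomial.finite_setOfPred_isRoot h).subset ?_)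
    Circle.coe_injective.injOn
  rintro _ ⟨w, hw, rfl⟩
  have h1 : ‖(w : ℂ) - z‖ = r := by
    rw [← dist_eq_norm]
    exact hw
  have h2 := Complex.mul_conj' ((w : ℂ) - z)
  have h3 := Complex.mul_conj' (w : ℂ)
  have h4 := Complex.mul_conj' (z : ℂ)
  rw [h1, map_sub] at h2
  rw [Circle.norm_coe] at h3 h4
  simp only [mem_ofPred_eq, Polynomial.IsRoot, Polynomial.eval_add, Polynomial.eval_sub,
    Polynomial.eval_pow, Polynomial.eval_X, Polynomial.eval_mul, Polynomial.eval_C]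
  push_cast at h3 h4
  linear_combination (-(w : ℂ) * z) * h2 + ((w : ℂ) * z - z ^ 2) * h3 + ((w : ℂ) * z - w ^ 2) * h4

lemma cut {ι : Type} [TopologicalSpace ι] [DiscreteTopology ι] [Finite ι] {y : ι × Circle → ℝ}
    (hy : Continuous y) {lo hi : ℝ} (h : lo < hi) : ∃ F : Set (ι × Circle), F.Finite ∧
      ∀ A, IsPreconnected A → (∃ z ∈ A, y z ≤ lo) → (∃ w ∈ A, hi ≤ y w) → ∃ x ∈ A, x ∈ F := by
  have h1 : ∀ z : ι × Circle, ∃ W, IsOpen W ∧ z ∈ W ∧ (frontier W).Finite ∧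
      ∀ w ∈ W, |y w - y z| < (hi - lo) / 2 := by
    rintro ⟨i, z⟩
    obtain ⟨r, r0, hr⟩ := Metric.continuous_iff.1 (hy.comp (Continuous.prodMk_right i)) z
      ((hi - lo) / 2) (by linarith)
    refine ⟨{i} ×ˢ ball z r, (isOpen_discrete _).prod isOpen_ball, ⟨rfl, mem_ball_self r0⟩, ?_, ?_⟩
    · rw [frontier_prod_eq, (isClopen_discrete {i}).frontier_eq, empty_prod, union_empty]
      exact (toFinite _).prod ((sph_fin z r).subset frontier_ball_subset_sphere)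
    · rintro ⟨_, w⟩ ⟨rfl, hw⟩
      exact hr w hw
  choose W w1 w2 w3 w4 using h1
  obtain ⟨t, ht⟩ := isCompact_univ.elim_finite_subcover W w1 fun z _ => mem_iUnion.2 ⟨z, w2 z⟩
  refine ⟨⋃ z ∈ t, frontier (W z), t.finite_toSet.biUnion fun z _ => w3 z, ?_⟩
  rintro A hA ⟨z, hz, a1⟩ ⟨w, hw, a2⟩
  by_contra hn
  obtain ⟨x, hx, hzx⟩ := mem_iUnion₂.1 (ht (mem_univ z))
  have h2 := hA.subset_of_closure_inter_subset (w1 x) ⟨z, hz, hzx⟩ fun v hv => by
    by_contra hc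
    exact hn ⟨v, hv.2, mem_iUnion₂.2 ⟨x, hx, (w1 x).frontier_eq ▸ ⟨hv.1, hc⟩⟩⟩
  linarith [(abs_lt.1 (w4 x z hzx)).1, (abs_lt.1 (w4 x w (h2 hw))).2]

lemma sub1 {y : ℝ → ℝ} (hy : Continuous y) {s t lo hi : ℝ} (h : lo ≤ hi) (st : s ≤ t)
    (hs : y s ≤ lo) (ht : hi ≤ y t) : ∃ u v, s ≤ u ∧ u ≤ v ∧ v ≤ t ∧ y u = lo ∧ y v = hi ∧
      ∀ w ∈ Icc u v, y w ∈ Icc lo hi := by
  obtain ⟨u, ⟨u1, u2⟩, u3⟩ := (isCompact_Icc.inter_right (isClosed_singleton.preimage hy) :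
    IsCompact (Icc s t ∩ y ⁻¹' {lo})).exists_isGreatest
      (intermediate_value_Icc st hy.continuousOn ⟨hs, h.trans ht⟩)
  have u2 : y u = lo := u2
  obtain ⟨v, ⟨v1, v2⟩, v3⟩ := (isCompact_Icc.inter_right (isClosed_singleton.preimage hy) :
    IsCompact (Icc u t ∩ y ⁻¹' {hi})).exists_isLeast
      (intermediate_value_Icc u1.2 hy.continuousOn ⟨u2.le.trans h, ht⟩)
  have v2 : y v = hi := v2
  refine ⟨u, v, u1.1, v1.1, v1.2, u2, v2, fun w hw => ⟨?_, ?_⟩⟩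
  · by_contra hc
    obtain ⟨x, hx, e⟩ := intermediate_value_Icc (hw.2.trans v1.2) hy.continuousOn
      (show lo ∈ Icc (y w) (y t) from ⟨(not_le.1 hc).le, h.trans ht⟩)
    have := u3 ⟨⟨u1.1.trans (hw.1.trans hx.1), hx.2⟩, e⟩
    rw [le_antisymm (hx.1.trans this) hw.1, u2] at hc
    exact hc le_rfl
  · by_contra hc
    obtain ⟨x, hx, e⟩ := intermediate_value_Icc hw.1 hy.continuousOn
      (show hi ∈ Icc (y u) (y w) from ⟨u2.le.trans h, (not_le.1 hc).le⟩)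
    have := v3 ⟨⟨hx.1, hx.2.trans (hw.2.trans v1.2)⟩, e⟩
    rw [le_antisymm hw.2 (this.trans hx.2), v2] at hc
    exact hc le_rfl

lemma sub2 {y : ℝ → ℝ} (hy : Continuous y) {a b s t lo hi : ℝ} (h : lo ≤ hi) (s1 : s ∈ Icc a b)
    (t1 : t ∈ Icc a b) (hs : y s ≤ lo) (ht : hi ≤ y t) : ∃ u v, a ≤ u ∧ u ≤ v ∧ v ≤ b ∧
      |y v - y u| = hi - lo ∧ ∀ w ∈ Icc u v, y w ∈ Icc lo hi := by
  rcases le_total s t with l | l
  · obtain ⟨u, v, h1, h2, h3, h4, h5, h6⟩ := sub1 hy h l hs ht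
    exact ⟨u, v, s1.1.trans h1, h2, h3.trans t1.2, by rw [h4, h5, abs_of_nonneg (by linarith)], h6⟩
  · obtain ⟨u, v, h1, h2, h3, h4, h5, h6⟩ := sub1 hy.neg (neg_le_neg h) l (neg_le_neg ht)
      (neg_le_neg hs)
    refine ⟨u, v, t1.1.trans h1, h2, h3.trans s1.2, ?_, fun w hw => ?_⟩
    · rw [neg_inj.1 h4, neg_inj.1 h5, abs_sub_comm, abs_of_nonneg (by linarith)]
    · exact ⟨neg_le_neg_iff.1 (h6 w hw).2, neg_le_neg_iff.1 (h6 w hw).1⟩

lemma tri1 {f : ℝ → ℝ} (hf : Continuous f) {u v : ℝ} (uv : u ≤ v) (h : 8 * π ≤ f v - f u) :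
    ∃ a b : Fin 3 → ℝ, (∀ i, u ≤ a i ∧ a i ≤ b i ∧ b i ≤ v ∧ 2 * π ≤ |f (b i) - f (a i)|) ∧
      Pairwise (Disjoint on fun i => Icc (a i) (b i)) := by
  have p := pi_pos
  obtain ⟨b₁, h1, e1⟩ := intermediate_value_Icc uv hf.continuousOn
    (show f u + 2 * π ∈ Icc _ _ from ⟨by linarith, by linarith⟩)
  obtain ⟨a₂, h2, e2⟩ := intermediate_value_Icc h1.2 hf.continuousOn
    (show f u + 3 * π ∈ Icc _ _ from ⟨by linarith, by linarith⟩)
  obtain ⟨b₂, h3, e3⟩ := intermediate_value_Icc h2.2 hf.continuousOn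
    (show f u + 5 * π ∈ Icc _ _ from ⟨by linarith, by linarith⟩)
  obtain ⟨a₃, h4, e4⟩ := intermediate_value_Icc h3.2 hf.continuousOn
    (show f u + 6 * π ∈ Icc _ _ from ⟨by linarith, by linarith⟩)
  have l1 : b₁ < a₂ := lt_of_le_of_ne h2.1 fun e => by rw [e] at e1; linarith
  have l2 : b₂ < a₃ := lt_of_le_of_ne h4.1 fun e => by rw [e] at e3; linarith
  have d : ∀ {a b c d : ℝ}, b < c → Disjoint (Icc a b) (Icc c d) := fun h =>
    disjoint_left.2 fun x h1 h2 => absurd (h2.1.trans h1.2) (not_le.2 h)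
  refine ⟨![u, a₂, a₃], ![b₁, b₂, v], fun i => ?_, fun i j hij => ?_⟩
  · fin_cases i
    · exact ⟨le_rfl, h1.1, h1.2, le_trans (by simp; linarith) (le_abs_self _)⟩
    · exact ⟨h1.1.trans h2.1, h3.1, h3.2, le_trans (by simp; linarith) (le_abs_self _)⟩
    · exact ⟨h1.1.trans (h2.1.trans (h3.1.trans h4.1)), h4.2, le_rfl,
        le_trans (by simp; linarith) (le_abs_self _)⟩
  · have l3 := (l1.trans_le h3.1).trans l2
    fin_cases i <;> fin_cases j
    exacts [absurd rfl hij, d l1, d l3, (d l1).symm, absurd rfl hij, d l2, (d l3).symm,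
      (d l2).symm, absurd rfl hij]

lemma tri {f : ℝ → ℝ} (hf : Continuous f) {u v : ℝ} (uv : u ≤ v) (h : 8 * π ≤ |f v - f u|) :
    ∃ a b : Fin 3 → ℝ, (∀ i, u ≤ a i ∧ a i ≤ b i ∧ b i ≤ v ∧ 2 * π ≤ |f (b i) - f (a i)|) ∧
      Pairwise (Disjoint on fun i => Icc (a i) (b i)) := by
  rcases le_abs.1 h with l | l
  · exact tri1 hf uv l
  · obtain ⟨a, b, h1, h2⟩ := tri1 hf.neg uv (by simp only [Pi.neg_apply]; linarith)
    refine ⟨a, b, fun i => ⟨(h1 i).1, (h1 i).2.1, (h1 i).2.2.1, (h1 i).2.2.2.trans_eq ?_⟩, h2⟩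
    rw [← abs_neg]
    simp [sub_eq_add_neg, add_comm]

lemma meet {f : ℝ → ℝ} (hf : Continuous f) {a b : ℝ} (ab : a ≤ b) (h : 2 * π ≤ |f b - f a|)
    (φ : ℝ) : ∃ w ∈ Icc a b, ∃ k : ℤ, f w = φ + k * (2 * π) := by
  by_contra hn
  have := short_of_avoid (f := fun x => f (x + a)) (by fun_prop) (sub_nonneg.2 ab) φ
    fun x hx k e => hn ⟨x + a, ⟨by linarith [hx.1], by linarith [hx.2]⟩, k, e⟩
  simp only [sub_add_cancel, zero_add] at this
  linarith

lemma not_null : ¬ (ContinuousMap.id Circle).Nullhomotopic := by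
  rintro ⟨y, ⟨H⟩⟩
  have cov := Circle.isCoveringMap_exp
  let K := cov.liftHomotopy H.symm.toContinuousMap (ContinuousMap.const _ (Complex.arg y))
    fun a => by simp [Circle.exp_arg]
  have h1 : ∀ a, Circle.exp (K (1, a)) = a := fun a =>
    (congrFun (cov.liftHomotopy_lifts _ _ _) (1, a)).trans (by simp)
  have h2 : Continuous fun t : ℝ => K (1, Circle.exp t) - K (1, Circle.exp (t + π)) := by fun_prop
  have h3 : Circle.exp (π + π) = Circle.exp 0 := by rw [← two_mul]; simp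
  obtain ⟨t, -, e⟩ := intermediate_value_uIcc (a := 0) (b := π) h2.continuousOn
    (show (0 : ℝ) ∈ uIcc _ _ by
      simp only [h3, zero_add]
      rcases le_total (K (1, Circle.exp 0)) (K (1, Circle.exp π)) with l | l
      · exact mem_uIcc.2 (Or.inl ⟨by linarith, by linarith⟩)
      · exact mem_uIcc.2 (Or.inr ⟨by linarith, by linarith⟩))
  have h4 := congrArg Circle.exp (sub_eq_zero.1 e)
  rw [h1, h1, Circle.exp_eq_exp] at h4
  obtain ⟨m, hm⟩ := h4
  have h5 : (1 + 2 * m : ℝ) = 0 := mul_left_cancel₀ pi_ne_zero (by linarith)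
  have h6 : 1 + 2 * m = 0 := by exact_mod_cast h5
  omega

end Pool.Agent.MP_5d0005_an.Gn
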