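import Pool.Agent.MP_5d0005_an.Gn.Par

/-! Chords of an arbitrary table and the uniform gain. -/

set_option autoImplicit false

open Set Real Filter Topology
open scoped ComplexConjugate

namespace Pool.Agent.MP_5d0005_an.Gn

variable {γ : ℝ → ℂ} {L : ℝ} (P : Par γ L)

namespace Par

/-- the table in the tangent angle parameter -/
def ov (θ : ℝ) : ℂ := γ (P.ar θ)

/-- the height of the point with tangent angle `φ + a` over the tangent line at `φ` -/
noncomputable def H (φ a : ℝ) : ℝ := (conj (uv φ) * (P.ov (φ + a) - P.ov φ)).im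

lemma car : Continuous P.ar := continuous_iff_continuousAt.2 fun θ => (P.dar θ).continuousAt

lemma ar_mono : StrictMono P.ar :=
  strictMono_of_deriv_pos fun θ => by rw [(P.dar θ).deriv]; exact P.pos θ

lemma ar_int (θ : ℝ) (k : ℤ) : P.ar (θ + k * (2 * π)) = P.ar θ + k * L := by
  rw [← P.ar_an (P.ar θ + k * L), P.per, P.an_ar]

lemma ov_int (θ : ℝ) (k : ℤ) : P.ov (θ + k * (2 * π)) = P.ov θ := by
  rw [ov, ov, ar_int, P.gper.int_mul k]

lemma ra_per : Function.Periodic P.ra (2 * π) := fun θ => by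
  have h1 := (P.dar (θ + 2 * π)).comp_add_const θ (2 * π)
  have h2 : (fun x => P.ar (x + 2 * π)) = fun x => P.ar x + L := funext fun x => by
    simpa using P.ar_int x 1
  rw [h2] at h1
  exact h1.unique ((P.dar θ).add_const L)

lemma dov (θ : ℝ) : HasDerivAt P.ov ((P.ra θ : ℂ) * uv θ) θ := by
  have h := (P.dg (P.ar θ)).scomp θ (P.dar θ)
  rw [P.an_ar, Complex.real_smul] at h
  exact h

lemma cov : Continuous P.ov := continuous_iff_continuousAt.2 fun θ => (P.dov θ).continuousAt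

lemma cuv : Continuous uv := by unfold uv; fun_prop

lemma cH : Continuous fun x : ℝ × ℝ => P.H x.1 x.2 := by
  have := P.cov
  have := cuv
  unfold H
  fun_prop

lemma H_int (φ a : ℝ) (k : ℤ) : P.H (φ + k * (2 * π)) a = P.H φ a := by
  rw [H, H, uv_int, add_right_comm, ov_int, ov_int]

lemma H_zero (φ : ℝ) : P.H φ 0 = 0 := by simp [H]

lemma H_sub (φ a : ℝ) : P.H φ (a - 2 * π) = P.H φ a := by
  have := P.ov_int (φ + a) (-1)
  rw [H, H, ← this]
  congr 4
  push_cast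
  ring

lemma dH {e : ℝ} (he : e = 1 ∨ e = -1) (φ a : ℝ) :
    HasDerivAt (fun a => P.H φ (e * a)) (P.ra (φ + e * a) * sin a) a := by
  have h1 : HasDerivAt (fun a => φ + e * a) e a := by
    simpa using ((hasDerivAt_id a).const_mul e).const_add φ
  have h2 := (((P.dov (φ + e * a)).scomp a h1).sub_const (P.ov φ)).const_mul (conj (uv φ))
  have h3 := Complex.imCLM.hasFDerivAt.comp_hasDerivAt a h2
  refine h3.congr_deriv ?_
  have h4 : conj (uv φ) * (e • ((P.ra (φ + e * a) : ℂ) * uv (φ + e * a))) =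
      (e * P.ra (φ + e * a) : ℝ) * uv (e * a) := by
    rw [uv_add, Complex.real_smul]
    push_cast
    linear_combination (e * P.ra (φ + e * a) * uv (e * a)) * conj_uv_mul φ
  rw [h4, uv_eq]
  rcases he with rfl | rfl <;> simp [-Complex.ofReal_sin, -Complex.ofReal_cos]

lemma mono {e : ℝ} (he : e = 1 ∨ e = -1) (φ : ℝ) :
    StrictMonoOn (fun a => P.H φ (e * a)) (Icc 0 π) := by
  refine strictMonoOn_of_deriv_pos (convex_Icc _ _)
    (fun a _ => (P.dH he φ a).continuousAt.continuousWithinAt) fun a ha => ?_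
  rw [interior_Icc] at ha
  rw [(P.dH he φ a).deriv]
  exact mul_pos (P.pos _) (sin_pos_of_mem_Ioo ha)

lemma ng {e : ℝ} (he : e = 1 ∨ e = -1) : -e = 1 ∨ -e = -1 := by
  rcases he with rfl | rfl <;> simp

lemma H_pi {e : ℝ} (he : e = 1 ∨ e = -1) (φ : ℝ) : P.H φ (-e * π) = P.H φ (e * π) := by
  have := P.H_sub φ π
  rw [show π - 2 * π = -π by ring] at this
  rcases he with rfl | rfl <;> simp [this]

lemma H_pos (φ : ℝ) {a : ℝ} (h0 : 0 < a) (h1 : a < 2 * π) : 0 < P.H φ a := by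
  rcases le_total a π with h | h
  · simpa [H_zero] using P.mono (Or.inl rfl) φ (left_mem_Icc.2 pi_pos.le) ⟨h0.le, h⟩ h0
  · have := P.mono (Or.inr rfl) φ (left_mem_Icc.2 pi_pos.le)
      (show 2 * π - a ∈ Icc 0 π from ⟨by linarith, by linarith⟩) (by linarith)
    simpa [H_zero, H_sub] using this

lemma lt_iff {e : ℝ} (he : e = 1 ∨ e = -1) (φ : ℝ) (a b : Ioo (0 : ℝ) π) :
    P.H φ (e * a) < P.H φ (e * b) ↔ a < b :=
  (P.mono he φ).lt_iff_lt (Ioo_subset_Icc_self a.2) (Ioo_subset_Icc_self b.2)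

open Classical in
/-- the other angle of the chord with direction `φ` and angle `α` -/
noncomputable def out (e φ : ℝ) (α : Ioo (0 : ℝ) π) : Ioo (0 : ℝ) π :=
  if h : ∃ β : Ioo (0 : ℝ) π, P.H φ (e * β) = P.H φ (-e * α) then h.choose else α

lemma out_spec {e : ℝ} (he : e = 1 ∨ e = -1) (φ : ℝ) (α : Ioo (0 : ℝ) π) :
    P.H φ (e * P.out e φ α) = P.H φ (-e * α) := by
  have h : ∃ β : Ioo (0 : ℝ) π, P.H φ (e * β) = P.H φ (-e * α) := by
    have hm := P.mono (ng he) φ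
    have l1 := hm (left_mem_Icc.mpr pi_pos.le) (Ioo_subset_Icc_self α.2) α.2.1
    have l2 := hm (Ioo_subset_Icc_self α.2) (right_mem_Icc.mpr pi_pos.le) α.2.2
    simp only [mul_zero, P.H_pi he] at l1 l2
    obtain ⟨β, hβ, e⟩ := intermediate_value_Ioo (f := fun a => P.H φ (e * a)) pi_pos.le
      (fun a _ => (P.dH he φ a).continuousAt.continuousWithinAt)
      (show P.H φ (-e * α) ∈ Ioo _ _ from ⟨by simpa using l1, l2⟩)
    exact ⟨⟨β, hβ⟩, e⟩
  rw [out, dif_pos h]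
  exact h.choose_spec

lemma out_unique {e : ℝ} (he : e = 1 ∨ e = -1) {φ : ℝ} {α β : Ioo (0 : ℝ) π}
    (h : P.H φ (e * β) = P.H φ (-e * α)) : β = P.out e φ α := by
  rw [← P.out_spec he] at h
  rcases lt_trichotomy β (P.out e φ α) with l | l | l
  · exact absurd h ((P.lt_iff he φ _ _).mpr l).ne
  · exact l
  · exact absurd h ((P.lt_iff he φ _ _).mpr l).ne'

lemma out_out {e : ℝ} (he : e = 1 ∨ e = -1) (φ : ℝ) (α : Ioo (0 : ℝ) π) :
    P.out (-e) φ (P.out e φ α) = α :=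
  (P.out_unique (ng he) (by rw [neg_neg, P.out_spec he])).symm

lemma out_int {e : ℝ} (he : e = 1 ∨ e = -1) (φ : ℝ) (k : ℤ) (α : Ioo (0 : ℝ) π) :
    P.out e (φ + k * (2 * π)) α = P.out e φ α :=
  (P.out_unique he (by rw [H_int, H_int, P.out_spec he])).symm

lemma cout {e : ℝ} (he : e = 1 ∨ e = -1) :
    Continuous fun x : ℝ × Ioo (0 : ℝ) π => P.out e x.1 x.2 := by
  rw [OrderTopology.continuous_iff]
  intro b
  have c1 : Continuous fun x : ℝ × Ioo (0 : ℝ) π => P.H x.1 (e * b) :=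
    P.cH.comp (f := fun x : ℝ × Ioo (0 : ℝ) π => (x.1, e * (b : ℝ))) (by fun_prop)
  have c2 : Continuous fun x : ℝ × Ioo (0 : ℝ) π => P.H x.1 (-e * x.2) :=
    P.cH.comp (f := fun x : ℝ × Ioo (0 : ℝ) π => (x.1, -e * (x.2 : ℝ))) (by fun_prop)
  constructor
  · convert isOpen_lt c1 c2 using 1
    ext x
    simp only [mem_preimage, mem_Ioi, mem_ofPred_eq]
    rw [← P.out_spec he, P.lt_iff he]
  · convert isOpen_lt c2 c1 using 1
    ext x
    simp only [mem_preimage, mem_Iio, mem_ofPred_eq]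
    rw [← P.out_spec he, P.lt_iff he]

/-- the defect of the level `a` in the direction `φ` -/
noncomputable def D (φ a : ℝ) : ℝ := P.H φ a - P.H φ (-a)

lemma D_eq (φ a : ℝ) : P.D φ a = (conj (uv φ) * (P.ov (φ + a) - P.ov (φ - a))).im := by
  rw [D, H, H, ← Complex.sub_im, sub_eq_add_neg φ a]
  congr 1
  ring

lemma D_e {e : ℝ} (he : e = 1 ∨ e = -1) (φ a : ℝ) :
    e * P.D φ a = P.H φ (e * a) - P.H φ (-e * a) := by
  rcases he with rfl | rfl <;> simp [D]

lemma D_pi (φ b : ℝ) : P.D (φ + π) (π - b) = P.D φ b := by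
  have h1 := P.ov_int (φ - b) 1
  have h2 : uv (φ + π) = -uv φ := by rw [uv_add, uv_eq π]; simp
  rw [D_eq, D_eq, h2, show φ + π - (π - b) = φ + b by ring, ← h1,
    show φ + π + (π - b) = φ - b + (1 : ℤ) * (2 * π) by push_cast; ring, map_neg]
  congr 1
  ring

lemma prim (a : ℝ) : ∃ F : ℝ → ℝ, Function.Periodic F (2 * π) ∧
    ∀ φ, HasDerivAt F (P.D φ a) φ := by
  refine ⟨fun φ => (conj (uv φ) * (P.ov (φ + a) - P.ov (φ - a))).re -
    cos a * (P.ar (φ + a) - P.ar (φ - a)), fun φ => ?_, fun φ => ?_⟩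
  · have h1 := P.ov_int (φ + a) 1
    have h2 := P.ov_int (φ - a) 1
    have h3 := P.ar_int (φ + a) 1
    have h4 := P.ar_int (φ - a) 1
    have h5 := uv_int φ 1
    simp only [Int.cast_one, one_mul] at h1 h2 h3 h4 h5
    simp only [add_right_comm φ _ a, add_sub_right_comm φ _ a, h1, h2, h3, h4, h5]
    ring
  · have h0 : HasDerivAt uv (uv φ * Complex.I) φ :=
      (((hasDerivAt_id φ).ofReal_comp).mul_const Complex.I).cexp.congr_deriv (by simp [uv])
    have h1 : HasDerivAt (fun φ => conj (uv φ)) (conj (uv φ * Complex.I)) φ := h0.star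
    have h2 := h1.mul (((P.dov (φ + a)).comp_add_const φ a).sub ((P.dov (φ - a)).comp_sub_const φ a))
    have h3 := (Complex.reCLM.hasFDerivAt.comp_hasDerivAt φ h2).sub
      ((((P.dar (φ + a)).comp_add_const φ a).sub ((P.dar (φ - a)).comp_sub_const φ a)).const_mul
        (cos a))
    refine h3.congr_deriv ?_
    have h4 : conj (uv φ) * ((P.ra (φ + a) : ℂ) * uv (φ + a) - (P.ra (φ - a) : ℂ) * uv (φ - a)) =
        P.ra (φ + a) * uv a - P.ra (φ - a) * uv (-a) := by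
      rw [uv_add, sub_eq_add_neg φ a, uv_add]
      linear_combination (P.ra (φ + a) * uv a - P.ra (φ + -a) * uv (-a)) * conj_uv_mul φ
    rw [h4, D_eq, uv_eq a, uv_eq (-a)]
    simp [-Complex.ofReal_sin, -Complex.ofReal_cos]
    ring

lemma sgn {F f : ℝ → ℝ} (hF : Function.Periodic F (2 * π)) (hd : ∀ x, HasDerivAt F (f x) x)
    {e : ℝ} (he : e = 1 ∨ e = -1) (h : ∀ x, e * f x ≤ 0) (x : ℝ) : f x = 0 := by
  have h1 : ∀ x, HasDerivAt (fun x => e * F x) (e * f x) x := fun x => (hd x).const_mul e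
  have h2 : Antitone fun x => e * F x :=
    antitone_of_deriv_nonpos (fun x => (h1 x).differentiableAt) fun x => by
      rw [(h1 x).deriv]; exact h x
  have h3 : IsLocalMin (fun x => e * F x) x := by
    filter_upwards [Ioo_mem_nhds (sub_lt_self x two_pi_pos) (lt_add_of_pos_right x two_pi_pos)]
      with y hy
    have := h2 hy.2.le
    simp only [hF x] at this
    exact this
  have h4 := h3.hasDerivAt_eq_zero (h1 x)
  rcases he with rfl | rfl <;> simpa using h4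

lemma fix (a : Ioo (0 : ℝ) π) : ∃ φ, P.out 1 φ a = a := by
  obtain ⟨F, h1, h2⟩ := P.prim a
  obtain ⟨φ, -, h⟩ := exists_hasDerivAt_eq_zero two_pi_pos
    (fun x _ => (h2 x).continuousAt.continuousWithinAt) (by simpa using (h1 0).symm)
    fun x _ => h2 x
  refine ⟨φ, (P.out_unique (Or.inl rfl) ?_).symm⟩
  simpa [D, sub_eq_zero] using h

lemma near0 {e : ℝ} (he : e = 1 ∨ e = -1) (h : ∃ x, deriv P.ra x ≠ 0) :
    ∃ c τ φ : ℝ, 0 < c ∧ 0 < τ ∧ ∀ a ∈ Icc 0 τ, c * sin a ^ 3 ≤ e * P.D φ a := by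
  obtain ⟨φ, hφ⟩ : ∃ φ, 0 < e * deriv P.ra φ := by
    by_contra hc
    obtain ⟨x, hx⟩ := h
    exact hx (sgn P.ra_per (fun x => (P.dra x).hasDerivAt) he
      (fun x => not_lt.1 fun h => hc ⟨x, h⟩) x)
  set m := e * deriv P.ra φ with hm
  have d1 : ∀ e : ℝ, HasDerivAt (fun u => P.ra (φ + e * u)) (deriv P.ra φ * e) 0 := fun e => by
    have h1 : HasDerivAt (fun a => φ + e * a) e 0 := by
      simpa using ((hasDerivAt_id (0 : ℝ)).const_mul e).const_add φ
    exact HasDerivAt.comp_of_eq 0 (P.dra φ).hasDerivAt h1 (by simp)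
  have d2 := ((d1 e).sub (d1 (-e))).sub ((hasDerivAt_id (0 : ℝ)).const_mul m)
  have d3 := d2.tendsto_slope_zero_right.eventually
    (lt_mem_nhds (show 0 < deriv P.ra φ * e - deriv P.ra φ * -e - m * 1 by linarith))
  obtain ⟨τ, hτ, ht⟩ := (nhdsGT_basis_Ioc (0 : ℝ)).eventually_iff.1 d3
  refine ⟨m / 3, min τ π, φ, by linarith, lt_min hτ pi_pos, fun a ha => ?_⟩
  have d4 : ∀ a, HasDerivAt (fun a => P.H φ (e * a) - P.H φ (-e * a) - m / 3 * sin a ^ 3)
      (P.ra (φ + e * a) * sin a - P.ra (φ + -e * a) * sin a -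
        m / 3 * ((3 : ℕ) * sin a ^ (3 - 1) * cos a)) a := fun a =>
    ((P.dH he φ a).sub (P.dH (ng he) φ a)).sub (((hasDerivAt_sin a).pow 3).const_mul _)
  have d5 := monotoneOn_of_deriv_nonneg (convex_Icc 0 (min τ π))
    (fun a _ => (d4 a).continuousAt.continuousWithinAt)
    (fun a _ => (d4 a).differentiableAt.differentiableWithinAt) (fun u hu => by
      rw [interior_Icc] at hu
      rw [(d4 u).deriv]
      have a1 := ht ⟨hu.1, hu.2.le.trans (min_le_left _ _)⟩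
      have a2 := sin_pos_of_pos_of_lt_pi hu.1 (hu.2.trans_le (min_le_right _ _))
      have a3 := sin_le hu.1.le
      have a4 := cos_le_one u
      simp only [zero_add, Pi.sub_apply, mul_zero, add_zero, sub_self, id, sub_zero,
        smul_eq_mul] at a1
      have a5 := (mul_pos_iff_of_pos_left (inv_pos.2 hu.1)).1 a1
      have a6 : sin u * cos u ≤ u := by nlinarith
      have a7 := mul_le_mul_of_nonneg_left a6 hφ.le
      push_cast
      nlinarith)
    (left_mem_Icc.2 (ha.1.trans ha.2)) ha ha.1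
  simp only [mul_zero, sin_zero, sub_self] at d5
  rw [P.D_e he]
  linarith

lemma low {e : ℝ} (he : e = 1 ∨ e = -1) {ε : ℝ} (hε : 0 < ε) : ∃ c : ℝ, 0 < c ∧
    ∀ a ∈ Ioo 0 π, (∀ g ∈ Ioo 0 π, (∀ φ, P.D φ g = 0) → ε ≤ |a - g|) →
      ∃ φ, c * sin a ^ 3 ≤ e * P.D φ a := by
  by_cases h : ∃ x, deriv P.ra x ≠ 0
  swap
  · refine ⟨1, one_pos, fun a ha hg => absurd (hg a ha fun φ => ?_) (by simpa using hε)⟩
    have h1 := is_const_of_deriv_eq_zero P.dra fun x => by_contra fun hx => h ⟨x, hx⟩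
    have h2 : ∀ a, HasDerivAt (fun a => P.H φ (1 * a) - P.H φ (-1 * a)) 0 a := fun a =>
      ((P.dH (Or.inl rfl) φ a).sub (P.dH (Or.inr rfl) φ a)).congr_deriv (by
        rw [h1 (φ + 1 * a) (φ + -1 * a), sub_self])
    simpa [D] using is_const_of_deriv_eq_zero (fun a => (h2 a).differentiableAt)
      (fun a => (h2 a).deriv) a 0
  obtain ⟨c, τ, φ, hc, hτ, h1⟩ := P.near0 he h
  have hK : IsCompact (Icc (min τ 1) (π - min τ 1) ∩
      ⋂ g ∈ {g | g ∈ Ioo 0 π ∧ ∀ φ, P.D φ g = 0}, {a | ε ≤ |a - g|}) :=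
    isCompact_Icc.inter_right (isClosed_biInter fun g _ => isClosed_le (by fun_prop) (by fun_prop))
  have m0 : 0 < min τ 1 := lt_min hτ one_pos
  obtain ⟨c', hc', h2⟩ : ∃ c' : ℝ, 0 < c' ∧ ∀ a ∈ Icc (min τ 1) (π - min τ 1) ∩
      ⋂ g ∈ {g | g ∈ Ioo 0 π ∧ ∀ φ, P.D φ g = 0}, {a | ε ≤ |a - g|}, ∃ φ, c' ≤ e * P.D φ a := by
    refine hK.induction_on (p := fun S => ∃ c' : ℝ, 0 < c' ∧ ∀ a ∈ S, ∃ φ, c' ≤ e * P.D φ a)
      ⟨1, one_pos, by simp⟩ (fun s t hst ⟨c, h1, h2⟩ => ⟨c, h1, fun a ha => h2 a (hst ha)⟩) ?_ ?_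
    · rintro s t ⟨c, h1, h2⟩ ⟨c', h1', h2'⟩
      refine ⟨min c c', lt_min h1 h1', ?_⟩
      rintro a (ha | ha)
      · exact (h2 a ha).imp fun φ h => (min_le_left _ _).trans h
      · exact (h2' a ha).imp fun φ h => (min_le_right _ _).trans h
    · rintro a ⟨a1, a2⟩
      obtain ⟨ψ, hψ⟩ : ∃ ψ, 0 < e * P.D ψ a := by
        by_contra hn
        obtain ⟨F, f1, f2⟩ := P.prim a
        have := mem_iInter₂.1 a2 a ⟨⟨by linarith [a1.1], by linarith [a1.2]⟩,
          sgn f1 f2 he fun x => not_lt.1 fun h => hn ⟨x, h⟩⟩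
        simp only [mem_ofPred_eq, sub_self, abs_zero] at this
        linarith
      have c1 : Continuous fun b => e * P.D ψ b :=
        continuous_const.mul ((P.cH.comp (f := fun b : ℝ => (ψ, b)) (by fun_prop)).sub
          (P.cH.comp (f := fun b : ℝ => (ψ, -b)) (by fun_prop)))
      exact ⟨_, mem_nhdsWithin_of_mem_nhds ((isOpen_lt continuous_const c1).mem_nhds
        (half_lt_self hψ)), _, half_pos hψ, fun b hb => ⟨ψ, le_of_lt hb⟩⟩
  refine ⟨min c c', lt_min hc hc', fun a ha hg => ?_⟩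
  have s0 : 0 ≤ sin a ^ 3 := pow_nonneg (sin_pos_of_mem_Ioo ha).le 3
  have s1 : sin a ^ 3 ≤ 1 := pow_le_one₀ (sin_pos_of_mem_Ioo ha).le (sin_le_one a)
  have s2 := mul_le_mul_of_nonneg_right (min_le_left c c') s0
  rcases le_total a (min τ 1) with l | l
  · exact ⟨φ, s2.trans (h1 a ⟨ha.1.le, l.trans (min_le_left _ _)⟩)⟩
  rcases le_total (π - min τ 1) a with l' | l'
  · have := h1 (π - a) ⟨by linarith [ha.2], by linarith [min_le_left τ 1]⟩
    rw [sin_pi_sub, ← D_pi, sub_sub_cancel] at this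
    exact ⟨_, s2.trans this⟩
  · obtain ⟨ψ, h3⟩ := h2 a ⟨⟨l, l'⟩, mem_iInter₂.2 fun g h => hg g h.1 h.2⟩
    exact ⟨ψ, ((mul_le_of_le_one_right (lt_min hc hc').le s1).trans (min_le_right _ _)).trans h3⟩

lemma cot_sub {a b : ℝ} (ha : a ∈ Ioo 0 π) (hb : b ∈ Ioo 0 π) :
    (cot a - cot b) * (sin a * sin b) = sin (b - a) := by
  have sa := (sin_pos_of_mem_Ioo ha).ne'
  have sb := (sin_pos_of_mem_Ioo hb).ne'
  rw [cot_eq_cos_div_sin, cot_eq_cos_div_sin, sin_sub]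
  field_simp

lemma cot_lt {a b : ℝ} (ha : a ∈ Ioo 0 π) (hb : b ∈ Ioo 0 π) (h : a < b) : cot b < cot a := by
  have h1 := cot_sub ha hb
  have h2 := sin_pos_of_pos_of_lt_pi (sub_pos.2 h) (by linarith [ha.1, hb.2])
  rw [← h1] at h2
  exact sub_pos.1 ((mul_pos_iff_of_pos_right
    (mul_pos (sin_pos_of_mem_Ioo ha) (sin_pos_of_mem_Ioo hb))).1 h2)

lemma cos_gap {a b δ : ℝ} (ha : a ∈ Ioo 0 π) (hb : b ∈ Ioo 0 π) (h : a ≤ b) (h1 : δ ≤ 1 / 2)
    (h2 : cot a - δ ≤ cot b) : cos a - cos b ≤ 4 * δ * sin a ^ 3 := by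
  have sa := sin_pos_of_mem_Ioo ha
  have sb := sin_pos_of_mem_Ioo hb
  have sa1 := sin_le_one a
  have sb1 := sin_le_one b
  have e1 := cot_sub ha hb
  obtain ⟨x, rfl⟩ : ∃ x, b = a + x := ⟨b - a, by ring⟩
  rw [add_sub_cancel_left] at e1
  have sx : 0 ≤ sin x := sin_nonneg_of_nonneg_of_le_pi (by linarith) (by linarith [ha.1, hb.2])
  have e2 := sin_add a x
  have e3 := cos_add a x
  set t := sin (a + x)
  have pab : 0 < sin a * t := mul_pos sa sb
  have k1 : sin x ≤ δ * (sin a * t) := by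
    rw [← e1]
    exact mul_le_mul_of_nonneg_right (by linarith) pab.le
  have d0 : 0 ≤ δ := by
    by_contra hc
    have : δ * (sin a * t) < 0 := mul_neg_of_neg_of_pos (not_le.1 hc) pab
    linarith
  have ca := cos_le_one a
  have cx := cos_le_one x
  have t0 : cos a * sin x ≤ sin x := by nlinarith
  have t1 : δ * (sin a * t) ≤ 1 / 2 * (sin a * t) := mul_le_mul_of_nonneg_right h1 pab.le
  have t2 : sin a * t ≤ t := by nlinarith
  have t3 : sin a * t ≤ sin a := by nlinarith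
  have cx0 : 0 < cos x := by
    by_contra hc
    have : sin a * cos x ≤ 0 := mul_nonpos_of_nonneg_of_nonpos sa.le (not_lt.1 hc)
    linarith
  have t4 : t ≤ 2 * sin a := by nlinarith
  have k2 : sin x ≤ 2 * δ * sin a ^ 2 := by
    have := mul_le_mul_of_nonneg_left (mul_le_mul_of_nonneg_left t4 sa.le) d0
    linarith
  have k3 : sin x ≤ sin a := by linarith
  have ex := sin_sq_add_cos_sq x
  have k4 : 1 - cos x ≤ sin x * sin x := by nlinarith
  have k5 : cos a * (1 - cos x) ≤ sin x * sin x := by nlinarith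
  have k6 : sin x * sin x ≤ sin a * sin x := mul_le_mul_of_nonneg_right k3 sx
  have k7 := mul_le_mul_of_nonneg_left k2 sa.le
  nlinarith

lemma bnd : ∃ R : ℝ, 0 < R ∧ ∀ e : ℝ, e = 1 ∨ e = -1 → ∀ φ,
    AntitoneOn (fun u => P.H φ (e * u) + R * cos u) (Icc 0 π) := by
  obtain ⟨R, hR⟩ := (P.ra_per.isBounded_of_continuous two_pi_pos.ne' P.dra.continuous).bddAbove
  refine ⟨R, (P.pos 0).trans_le (hR ⟨0, rfl⟩), fun e he φ => ?_⟩
  have d1 : ∀ u, HasDerivAt (fun u => P.H φ (e * u) + R * cos u)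
      (P.ra (φ + e * u) * sin u + R * -sin u) u := fun u =>
    (P.dH he φ u).add ((hasDerivAt_cos u).const_mul R)
  refine antitoneOn_of_deriv_nonpos (convex_Icc 0 π)
    (fun u _ => (d1 u).continuousAt.continuousWithinAt)
    (fun u _ => (d1 u).differentiableAt.differentiableWithinAt) fun u hu => ?_
  rw [interior_Icc] at hu
  rw [(d1 u).deriv]
  have := mul_le_mul_of_nonneg_right (hR ⟨φ + e * u, rfl⟩) (sin_pos_of_mem_Ioo hu).le
  linarith

theorem gain {e : ℝ} (he : e = 1 ∨ e = -1) {ε : ℝ} (hε : 0 < ε) : ∃ δ : ℝ, 0 < δ ∧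
    ∀ a : Ioo (0 : ℝ) π, (∀ g ∈ Ioo 0 π, (∀ φ, P.D φ g = 0) → ε ≤ |a - g|) →
      ∃ φ, ∀ α : Ioo (0 : ℝ) π, cot α ≤ cot a → cot a - δ ≤ cot α → cot a < cot (P.out e φ α) := by
  obtain ⟨c, hc, h⟩ := P.low he hε
  obtain ⟨R, R0, hR⟩ := P.bnd
  refine ⟨min (1 / 2) (c / (8 * R)), lt_min (by norm_num) (by positivity), fun a ha => ?_⟩
  obtain ⟨φ, hφ⟩ := h a a.2 ha
  refine ⟨φ, fun α h1 h2 => cot_lt (P.out e φ α).2 a.2 ?_⟩
  have h3 : (a : ℝ) ≤ α := not_lt.1 fun l => absurd (cot_lt α.2 a.2 l) (not_lt.2 h1)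
  have h4 := cos_gap a.2 α.2 h3 (min_le_left _ _) h2
  have d2 := hR _ (ng he) φ (Ioo_subset_Icc_self a.2) (Ioo_subset_Icc_self α.2) h3
  have s0 : 0 < sin a ^ 3 := pow_pos (sin_pos_of_mem_Ioo a.2) 3
  have h5 : min (1 / 2) (c / (8 * R)) * (8 * R) ≤ c :=
    (le_div_iff₀ (by positivity)).1 (min_le_right _ _)
  have h6 := mul_le_mul_of_nonneg_left h4 R0.le
  have h7 := mul_le_mul_of_nonneg_right h5 s0.le
  have h8 := mul_pos hc s0
  show P.out e φ α < a
  rw [← P.lt_iff he φ, P.out_spec he]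
  rw [P.D_e he] at hφ
  simp only at d2
  linarith

theorem loss {e : ℝ} (he : e = 1 ∨ e = -1) {ε : ℝ} (hε : 0 < ε) : ∃ δ : ℝ, 0 < δ ∧
    ∀ a : Ioo (0 : ℝ) π, (∀ g ∈ Ioo 0 π, (∀ φ, P.D φ g = 0) → ε ≤ |a - g|) →
      ∃ φ, ∀ α : Ioo (0 : ℝ) π, cot a ≤ cot α → cot α ≤ cot a + δ → cot (P.out e φ α) < cot a := by
  obtain ⟨c, hc, h⟩ := P.low (ng he) hε
  obtain ⟨R, R0, hR⟩ := P.bnd
  refine ⟨min (1 / 2) (c / (8 * R)), lt_min (by norm_num) (by positivity), fun a ha => ?_⟩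
  obtain ⟨φ, hφ⟩ := h a a.2 ha
  refine ⟨φ, fun α h1 h2 => cot_lt a.2 (P.out e φ α).2 ?_⟩
  have h3 : (α : ℝ) ≤ a := not_lt.1 fun l => absurd (cot_lt a.2 α.2 l) (not_lt.2 h1)
  have r1 : ∀ x : ℝ, cot (π - x) = -cot x := fun x => by
    rw [cot_eq_cos_div_sin, cot_eq_cos_div_sin, cos_pi_sub, sin_pi_sub, neg_div]
  have h4 := cos_gap (a := π - a) (b := π - α) ⟨sub_pos.2 a.2.2, sub_lt_self _ a.2.1⟩
    ⟨sub_pos.2 α.2.2, sub_lt_self _ α.2.1⟩ (by linarith) (min_le_left _ (c / (8 * R)))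
    (by rw [r1, r1]; linarith)
  rw [cos_pi_sub, cos_pi_sub, sin_pi_sub] at h4
  have d2 := hR _ (ng he) φ (Ioo_subset_Icc_self α.2) (Ioo_subset_Icc_self a.2) h3
  have s0 : 0 < sin a ^ 3 := pow_pos (sin_pos_of_mem_Ioo a.2) 3
  have h5 : min (1 / 2) (c / (8 * R)) * (8 * R) ≤ c :=
    (le_div_iff₀ (by positivity)).1 (min_le_right _ _)
  have h6 := mul_le_mul_of_nonneg_left h4 R0.le
  have h7 := mul_le_mul_of_nonneg_right h5 s0.le
  have h8 := mul_pos hc s0
  show a < P.out e φ α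
  rw [← P.lt_iff he φ, P.out_spec he]
  rw [P.D_e (ng he), neg_neg] at hφ
  simp only at d2
  linarith

lemma le_cot {a b : ℝ} (ha : a ∈ Ioo 0 π) (hb : b ∈ Ioo 0 π) : |a - b| ≤ |cot a - cot b| := by
  have d1 : ∀ x ∈ Ioo 0 π, HasDerivAt (fun x => x + cot x)
      (1 + (-sin x * sin x - cos x * cos x) / sin x ^ 2) x := fun x hx => by
    simp only [cot_eq_cos_div_sin]
    exact (hasDerivAt_id x).add
      ((hasDerivAt_cos x).div (hasDerivAt_sin x) (sin_pos_of_mem_Ioo hx).ne')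
  have d2 := antitoneOn_of_deriv_nonpos (convex_Ioo 0 π)
    (fun u hu => (d1 u hu).continuousAt.continuousWithinAt)
    (fun u hu => (d1 u (interior_subset hu)).differentiableAt.differentiableWithinAt)
    fun u hu => by
      have h1 := pow_pos (sin_pos_of_mem_Ioo (interior_subset hu)) 2
      rw [(d1 u (interior_subset hu)).deriv, add_div' _ _ _ h1.ne']
      exact div_nonpos_of_nonpos_of_nonneg (by nlinarith [mul_self_nonneg (cos u)]) h1.le
  rcases le_total a b with l | l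
  · have := d2 ha hb l
    rw [abs_of_nonpos (sub_nonpos.2 l)]
    exact le_trans (by linarith) (le_abs_self _)
  · have := d2 hb ha l
    rw [abs_of_nonneg (sub_nonneg.2 l)]
    exact le_trans (by linarith) (neg_le_abs _)

end Par

end Pool.Agent.MP_5d0005_an.Gn
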