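import Pool.Agent.MP_5d0005_an.Gn.Ch

/-! Invariant loops come close to the preserved levels. -/

set_option autoImplicit false

open Set Real
open scoped ComplexConjugate unitInterval

namespace Pool.Agent.MP_5d0005_an.Gn

/-- the covering projection -/
noncomputable def pj (L : ℝ) (p : Cover) : Phase L := ((p.1 : AddCircle L), p.2)

/-- deck translation -/
noncomputable def dk (L : ℝ) (k : ℤ) (p : Cover) : Cover := (p.1 + k * L, p.2)

variable {γ : ℝ → ℂ} {L : ℝ} (P : Par γ L)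

lemma cpj : Continuous (pj L) :=
  ((AddCircle.continuous_mk' L).comp continuous_fst).prodMk continuous_snd

lemma pj_surj : Function.Surjective (pj L) := by
  rintro ⟨x, a⟩
  obtain ⟨s, rfl⟩ := QuotientAddGroup.mk_surjective x
  exact ⟨(s, a), rfl⟩

lemma pj_iff {p q : Cover} : pj L p = pj L q ↔ ∃ k : ℤ, q = dk L k p := by
  constructor
  · intro h
    obtain ⟨k, hk⟩ := ceq_iff.mp (congrArg Prod.fst h)
    exact ⟨k, Prod.ext hk (congrArg Prod.snd h).symm⟩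
  · rintro ⟨k, rfl⟩
    exact Prod.ext (ceq_iff.mpr ⟨k, rfl⟩) rfl

lemma shf_dk (d : ℝ) (k : ℤ) (p : Cover) : shf d (dk L k p) = dk L k (shf d p) := by
  simp only [shf, dk]
  congr 1
  ring

lemma joined_cvx {G : Set Cover} {S : Set ℝ} (hS : Convex ℝ S) (hG : ∀ p ∈ G, (p.2 : ℝ) ∉ S)
    {p q : Cover} (hp : (p.2 : ℝ) ∈ S) (hq : (q.2 : ℝ) ∈ S) : JoinedIn Gᶜ p q := by
  have hm : ∀ t : I, (1 - (t : ℝ)) * p.2 + t * q.2 ∈ S := fun t =>
    hS hp hq (by linarith [t.2.2]) t.2.1 (by ring)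
  have hm' : ∀ t : I, (1 - (t : ℝ)) * p.2 + t * q.2 ∈ Ioo 0 π := fun t =>
    (convex_Ioo 0 π) p.2.2 q.2.2 (by linarith [t.2.2]) t.2.1 (by ring)
  refine ⟨⟨⟨fun t => ((1 - (t : ℝ)) * p.1 + t * q.1, ⟨_, hm' t⟩), ?_⟩, ?_, ?_⟩, fun t ht => ?_⟩
  · exact Continuous.prodMk (by fun_prop) (Continuous.subtype_mk (by fun_prop) _)
  · simp
  · simp
  · exact hG _ ht (hm t)

lemma exists_cot (X : ℝ) : ∃ a : Ioo (0 : ℝ) π, cot a = X := by
  have h1 := arctan_lt_pi_div_two X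
  have h2 := neg_pi_div_two_lt_arctan X
  refine ⟨⟨π / 2 - arctan X, by linarith, by linarith⟩, ?_⟩
  show cot (π / 2 - arctan X) = X
  rw [cot_eq_cos_div_sin, cos_pi_div_two_sub, sin_pi_div_two_sub, ← tan_eq_sin_div_cos,
    tan_arctan]

namespace Par

/-- the lifted billiard map for `e = 1`, its inverse for `e = -1` -/
noncomputable def fw (e : ℝ) (p : Cover) : Cover :=
  (P.ar (P.an p.1 + e * p.2 + e * P.out e (P.an p.1 + e * p.2) p.2),
    P.out e (P.an p.1 + e * p.2) p.2)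

lemma fw_dk {e : ℝ} (he : e = 1 ∨ e = -1) (k : ℤ) (p : Cover) :
    P.fw e (dk L k p) = dk L k (P.fw e p) := by
  have h : P.an (p.1 + k * L) + e * p.2 = P.an p.1 + e * p.2 + k * (2 * π) := by
    rw [P.per]; ring
  simp only [fw, dk, h, P.out_int he]
  rw [← P.ar_int]
  congr 2
  ring

lemma fw_fw {e : ℝ} (he : e = 1 ∨ e = -1) (p : Cover) : P.fw (-e) (P.fw e p) = p := by
  have h : ∀ x y : ℝ, x + e * y + -e * y = x := fun x y => by ring
  simp only [fw, P.an_ar, h, P.out_out he, P.ar_an]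

lemma cfw {e : ℝ} (he : e = 1 ∨ e = -1) : Continuous (P.fw e) := by
  have h1 : Continuous fun p : Cover => P.an p.1 + e * p.2 :=
    (P.can.comp continuous_fst).add (by fun_prop)
  have h2 : Continuous fun p : Cover => P.out e (P.an p.1 + e * p.2) p.2 :=
    (P.cout he).comp (f := fun p : Cover => (P.an p.1 + e * p.2, p.2)) (h1.prodMk continuous_snd)
  exact (P.car.comp (h1.add (continuous_const.mul (continuous_subtype_val.comp h2)))).prodMk h2

/-- the billiard map -/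
noncomputable def bil (p : Phase L) : Phase L := pj L (P.fw 1 (Function.surjInv pj_surj p))

lemma bil_pj (p : Cover) : P.bil (pj L p) = pj L (P.fw 1 p) := by
  obtain ⟨k, hk⟩ := pj_iff.mp (Function.surjInv_eq pj_surj (pj L p))
  rw [bil, pj_iff]
  exact ⟨k, by rw [← P.fw_dk (Or.inl rfl), ← hk]⟩

lemma dv : deriv γ = fun s => uv (P.an s) := funext fun s => (P.dg s).deriv

lemma ov_an (s : ℝ) : P.ov (P.an s) = γ s := by rw [ov, P.ar_an]

lemma bounce_fw (p : Cover) : IsBounce γ L (pj L p) (pj L (P.fw 1 p)) := by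
  obtain ⟨s, a⟩ := p
  simp only [fw, one_mul]
  set φ := P.an s + a with hφ
  set b := P.out 1 φ a with hb
  have hu : uv φ = uv a * uv (P.an s) := by rw [hφ, uv_add, mul_comm]
  have him : (conj (uv φ) * (P.ov (φ + b) - P.ov (P.an s))).im = 0 := by
    have h2 := P.out_spec (Or.inl rfl) φ a
    have e : φ + -1 * (a : ℝ) = P.an s := by rw [hφ]; ring
    rw [H, H, e, one_mul, ← hb] at h2
    have : conj (uv φ) * (P.ov (φ + b) - P.ov (P.an s)) = conj (uv φ) * (P.ov (φ + b) - P.ov φ) -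
      conj (uv φ) * (P.ov (P.an s) - P.ov φ) := by ring
    rw [this, Complex.sub_im, h2, sub_self]
  set r := (conj (uv φ) * (P.ov (φ + b) - P.ov (P.an s))).re with hr
  have hw : conj (uv φ) * (P.ov (φ + b) - P.ov (P.an s)) = r := by
    apply Complex.ext
    · simp [hr]
    · rw [him]; simp
  have hch : P.ov (φ + b) - P.ov (P.an s) = r * uv φ := by
    rw [← hw]
    linear_combination (-(P.ov (φ + b) - P.ov (P.an s))) * conj_uv_mul φ
  have hpos : 0 < r := by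
    have e : φ + b = P.an s + (a + b) := by rw [hφ]; ring
    have h4 := P.H_pos (P.an s) (add_pos a.2.1 b.2.1) (by linarith [a.2.2, b.2.2])
    have h2 : conj (uv (P.an s)) * (r * (uv a * uv (P.an s))) = r * uv a := by
      linear_combination (r * uv a) * conj_uv_mul (P.an s)
    rw [H, ← e, hch, hu, h2, uv_eq] at h4
    have h5 : 0 < r * sin a := by
      simpa only [Complex.mul_im, Complex.add_re, Complex.add_im, Complex.ofReal_re,
        Complex.ofReal_im, Complex.mul_re, Complex.I_re, Complex.I_im, mul_zero, mul_one,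
        zero_mul, add_zero, zero_add] using h4
    exact (mul_pos_iff_of_pos_right (sin_pos_of_mem_Ioo a.2)).mp h5
  refine ⟨s, P.ar (φ + b), r, rfl, rfl, hpos, ?_, ?_⟩
  · rw [P.dv, ← P.ov_an s]
    exact hch.trans (by rw [hu]; rfl)
  · rw [P.dv]
    show uv (P.an (P.ar (φ + b))) = uv b * (uv a * uv (P.an s))
    rw [P.an_ar, uv_add, hu, mul_comm]

lemma bounce_un {p q : Phase L} (h : IsBounce γ L p q) : q = P.bil p := by
  obtain ⟨s, s₁, r, hs, hs₁, -, h1, h2⟩ := h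
  have hp : p = pj L (s, p.2) := Prod.ext hs.symm rfl
  have hq : q = pj L (s₁, q.2) := Prod.ext hs₁.symm rfl
  rw [P.dv] at h1 h2
  set a := p.2
  set b := q.2
  set φ := P.an s + a with hφ
  have hu : uv φ = uv a * uv (P.an s) := by rw [hφ, uv_add, mul_comm]
  have h1' : P.ov (P.an s₁) - P.ov (P.an s) = r * uv φ := by rw [hu, ov_an, ov_an]; exact h1
  have h2' : uv (P.an s₁) = uv (φ + b) := by rw [uv_add, hu, mul_comm]; exact h2
  obtain ⟨k, hk⟩ := uv_eq_iff h2'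
  rw [hk, ov_int] at h1'
  have hb : b = P.out 1 φ a := by
    apply P.out_unique (Or.inl rfl)
    have e : φ + -1 * (a : ℝ) = P.an s := by rw [hφ]; ring
    have : conj (uv φ) * (P.ov (φ + b) - P.ov φ) =
        conj (uv φ) * (P.ov (P.an s) - P.ov φ) + r := by
      linear_combination conj (uv φ) * h1' + r * conj_uv_mul φ
    rw [H, H, one_mul, e, this]
    simp
  rw [hp, hq, bil_pj, eq_comm, pj_iff]
  simp only [fw, one_mul]
  refine ⟨k, Prod.ext ?_ hb⟩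
  show s₁ = P.ar (φ + P.out 1 φ a) + k * L
  rw [← hb, ← P.ar_int, ← hk, P.ar_an]

theorem bounce (p q : Phase L) : IsBounce γ L p q ↔ q = P.bil p := by
  refine ⟨P.bounce_un, ?_⟩
  rintro rfl
  obtain ⟨p, rfl⟩ := pj_surj p
  rw [bil_pj]
  exact P.bounce_fw p

lemma pres (g : Ioo (0 : ℝ) π) : (∀ x, (P.bil (x, g)).2 = g) ↔ ∀ φ, P.D φ g = 0 := by
  have h1 : ∀ s : ℝ, (P.bil ((s : AddCircle L), g)).2 = P.out 1 (P.an s + 1 * g) g := fun s =>
    congrArg Prod.snd (P.bil_pj (s, g))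
  constructor
  · intro h φ
    have h2 := (h1 (P.ar (φ - g))).symm.trans (h _)
    have h3 := P.out_spec (Or.inl rfl) φ g
    rw [P.an_ar, one_mul, sub_add_cancel] at h2
    rw [h2] at h3
    simpa [D, sub_eq_zero] using h3
  · intro h x
    obtain ⟨s, rfl⟩ := QuotientAddGroup.mk_surjective x
    refine (h1 s).trans (P.out_unique (Or.inl rfl) ?_).symm
    simpa [D, sub_eq_zero] using h (P.an s + g)

lemma level (g : Ioo (0 : ℝ) π) (h : ∀ x, (P.bil (x, g)).2 = g) (d : ℝ) :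
    (cylShift L d ∘ P.bil) '' {p | p.2 = g} = {p | p.2 = g} := by
  refine Subset.antisymm ?_ ?_
  · rintro _ ⟨⟨x, _⟩, rfl, rfl⟩
    exact h x
  · intro q hq
    obtain ⟨q, rfl⟩ := pj_surj q
    have hq : q.2 = g := hq
    refine ⟨pj L (P.fw (-1) (shf (-d) q)), ?_, ?_⟩
    · refine (P.out_unique (Or.inr rfl) ?_).symm
      have := (P.pres g).1 h (P.an (shf (-d) q).1 + -1 * (shf (-d) q).2)
      rw [D, sub_eq_zero] at this
      rw [show (shf (-d) q).2 = g from hq] at this ⊢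
      simpa using this.symm
    · have h1 := P.fw_fw (Or.inr rfl) (shf (-d) q)
      have h2 := shf_shf (-d) q
      rw [neg_neg] at h1 h2
      rw [Function.comp_apply, bil_pj, h1]
      exact congrArg (pj L) h2

lemma near {x y : ℝ} (h : P.an x < P.an y + 4 * π) : x < y + 2 * L := by
  have h1 := P.ar_mono h
  have h2 := P.ar_int (P.an y) 2
  rw [show P.an y + 4 * π = P.an y + (2 : ℤ) * (2 * π) by push_cast; ring, h2, P.ar_an,
    P.ar_an] at h1
  exact_mod_cast h1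

theorem barrier {ε : ℝ} (hε : 0 < ε) : ∃ d₀ : ℝ, ∀ d, d₀ ≤ d → ∀ (G : Set Cover) (M B : ℝ),
    M < π → (∀ p ∈ G, (p.2 : ℝ) ≤ M) → (∀ p, shf d (P.fw 1 p) ∈ G ↔ p ∈ G) →
    (∀ p q : Cover, M < q.2 → JoinedIn Gᶜ p q → cot p.2 ≤ B) →
    ∃ p ∈ G, ∃ g ∈ Ioo 0 π, (∀ φ, P.D φ g = 0) ∧ |(p.2 : ℝ) - g| < ε := by
  obtain ⟨δ₁, p1, g1⟩ := P.gain (Or.inl rfl) (half_pos hε)
  obtain ⟨δ₂, p2, g2⟩ := P.gain (Or.inr rfl) (half_pos hε)
  obtain ⟨δ, δ0, l1, l2⟩ : ∃ δ, 0 < δ ∧ δ ≤ δ₁ ∧ δ ≤ δ₂ :=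
    ⟨_, lt_min p1 p2, min_le_left _ _, min_le_right _ _⟩
  refine ⟨8 * L / δ, fun d hd G M B hM hG hinv hsep => ?_⟩
  by_contra hno
  push Not at hno
  obtain ⟨u, hu, hTu⟩ : ∃ u : Cover, M < u.2 ∧ M < (shf d (P.fw 1 u)).2 := by
    obtain ⟨a₀, ha₀, -⟩ := exists_high M hM 0
    obtain ⟨φ₀, h₀⟩ := P.fix a₀
    refine ⟨(P.ar (φ₀ - a₀), a₀), ha₀, ?_⟩
    show M < P.out 1 (P.an (P.ar (φ₀ - a₀)) + 1 * a₀) a₀
    rw [P.an_ar, one_mul, sub_add_cancel, h₀]
    exact ha₀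
  have hfwd : ∀ p, JoinedIn Gᶜ p u → JoinedIn Gᶜ (shf d (P.fw 1 p)) u := by
    intro p hp
    have h1 := JoinedIn.map hp ((continuous_shf d).comp (P.cfw (Or.inl rfl)))
    simp only [Function.comp_apply] at h1
    refine (h1.mono ?_).trans (joined_high hG hTu hu)
    rintro _ ⟨x, hx, rfl⟩ hx'
    exact hx ((hinv x).mp hx')
  have hbwd : ∀ p, JoinedIn Gᶜ p u → JoinedIn Gᶜ (P.fw (-1) (shf (-d) p)) u := by
    intro p hp
    have h0 : JoinedIn Gᶜ p (shf d (P.fw 1 u)) := JoinedIn.trans hp (joined_high hG hu hTu)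
    have h1 := JoinedIn.map h0 ((P.cfw (Or.inr rfl)).comp (continuous_shf (-d)))
    simp only [Function.comp_apply, shf_shf, P.fw_fw (Or.inl rfl)] at h1
    refine h1.mono ?_
    rintro _ ⟨x, hx, rfl⟩ hx'
    apply hx
    have h2 := (hinv (P.fw (-1) (shf (-d) x))).mpr hx'
    have h3 := shf_shf (-d) x
    have h4 := P.fw_fw (Or.inr rfl) (shf (-d) x)
    rw [neg_neg] at h3 h4
    rwa [h4, h3] at h2
  obtain ⟨X, hle, hX⟩ : ∃ X : ℝ, (∀ p, JoinedIn Gᶜ p u → cot p.2 ≤ X) ∧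
      ∀ x < X, ∃ p, JoinedIn Gᶜ p u ∧ x < cot p.2 := by
    refine ⟨sSup ((fun p : Cover => cot p.2) '' {p | JoinedIn Gᶜ p u}), fun p hp =>
      le_csSup ⟨B, ?_⟩ ⟨p, hp, rfl⟩, fun x hx => ?_⟩
    · rintro _ ⟨p, hp, rfl⟩
      exact hsep p u hu hp
    · obtain ⟨_, ⟨p, hp, rfl⟩, h⟩ :=
        exists_lt_of_lt_csSup (Set.Nonempty.image _ ⟨u, joined_high hG hu hu⟩) hx
      exact ⟨p, hp, h⟩
  obtain ⟨a, ha⟩ := exists_cot X
  have far : ∀ g ∈ Ioo 0 π, (∀ φ, P.D φ g = 0) → ε / 2 ≤ |a - g| := by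
    intro g hg hD
    by_contra hc
    obtain ⟨θ, t0, t1, t2, t3⟩ : ∃ θ : ℝ, 0 < θ ∧ θ ≤ ε / 2 ∧ θ < a ∧ θ < π - a :=
      ⟨min (ε / 2) (min (a / 2) ((π - a) / 2)),
        lt_min (half_pos hε) (lt_min (half_pos a.2.1) (half_pos (sub_pos.2 a.2.2))),
        min_le_left _ _, ((min_le_right _ _).trans (min_le_left _ _)).trans_lt
          (half_lt_self a.2.1), ((min_le_right _ _).trans (min_le_right _ _)).trans_lt
          (half_lt_self (sub_pos.2 a.2.2))⟩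
    have m1 : a + θ ∈ Ioo 0 π := ⟨by linarith, by linarith⟩
    have m2 : a - θ ∈ Ioo 0 π := ⟨by linarith, by linarith⟩
    obtain ⟨p, hp, hpX⟩ := hX (cot (a + θ)) (ha ▸ cot_lt a.2 m1 (by linarith))
    have c1 := cot_lt m2 a.2 (by linarith)
    have c2 := hle p hp
    have c3 : (p.2 : ℝ) ∈ Icc (a - θ) (a + θ) :=
      ⟨not_lt.1 fun l => by linarith [cot_lt p.2.2 m2 l],
        not_lt.1 fun l => by linarith [cot_lt m1 p.2.2 l]⟩
    have c5 : ∀ q ∈ G, (q.2 : ℝ) ∉ Icc (a - θ) (a + θ) := fun q hq hq' => by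
      have b1 := hno q hq g hg hD
      have b2 := abs_sub_le (q.2 : ℝ) a g
      have b3 : |(q.2 : ℝ) - a| ≤ θ := abs_le.2 ⟨by linarith [hq'.1], by linarith [hq'.2]⟩
      linarith [not_le.1 hc]
    have c6 : a - θ ∈ Icc (a - θ) (a + θ) := ⟨le_rfl, by linarith⟩
    have c4 : cot (a - θ) ≤ X := hle (p.1, ⟨a - θ, m2⟩)
      ((joined_cvx (p := (p.1, ⟨a - θ, m2⟩)) (convex_Icc _ _) c5 c6 c3).trans hp)
    linarith
  obtain ⟨φ₁, k1⟩ := g1 a far
  obtain ⟨φ₂, k2⟩ := g2 a far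
  rw [ha] at k1 k2
  obtain ⟨p, hp, hpX⟩ := hX (X - δ / 2) (by linarith)
  obtain ⟨a₁, ha₁, hc₁⟩ := exists_high M hM (X - δ)
  have hj : JoinedIn Gᶜ p (0, a₁) := JoinedIn.trans hp (joined_high hG hu ha₁)
  obtain ⟨η, hηc, hη0, hη1, hηV⟩ : ∃ η : ℝ → Cover, Continuous η ∧ η 0 = p ∧ η 1 = (0, a₁) ∧
      ∀ t, JoinedIn Gᶜ (η t) u := by
    obtain ⟨η₀, hη₀⟩ := hj
    refine ⟨η₀.extend, η₀.continuous_extend, η₀.extend_zero, η₀.extend_one, fun t => ?_⟩
    have := (isPathConnected_range η₀.continuous_extend).joinedIn p ⟨0, η₀.extend_zero⟩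
      (η₀.extend t) ⟨t, rfl⟩
    exact (this.mono (by rintro _ ⟨v, rfl⟩; exact hη₀ _)).symm.trans hp
  obtain ⟨y, hy, hyc⟩ : ∃ y : ℝ → ℝ, (∀ t, cot (η t).2 = y t) ∧ Continuous y :=
    ⟨_, fun _ => rfl, continuous_cot.comp (continuous_snd.comp hηc)⟩
  have hy0 : X - δ / 2 < y 0 := by rwa [← hy, hη0]
  have hy1 : y 1 < X - δ := by rwa [← hy, hη1]
  have hS : IsCompact (Icc (0 : ℝ) 1 ∩ y ⁻¹' {X - δ}) :=
    isCompact_Icc.inter_right (isClosed_singleton.preimage hyc)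
  obtain ⟨t, ⟨ht, hyt⟩, hmin⟩ := hS.exists_isLeast (by
    obtain ⟨v, hv, e⟩ := intermediate_value_Icc' zero_le_one hyc.continuousOn
      (show X - δ ∈ Icc (y 1) (y 0) from ⟨hy1.le, by linarith⟩)
    exact ⟨v, hv, e⟩)
  have hyt' : y t = X - δ := hyt
  have hlow : ∀ v ∈ Icc 0 t, X - δ ≤ y v := by
    intro v hv
    by_contra hcon
    obtain ⟨w, hw, e⟩ := intermediate_value_Icc' hv.1 hyc.continuousOn
      (show X - δ ∈ Icc (y v) (y 0) from ⟨(not_le.mp hcon).le, by linarith⟩)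
    have h1 : t ≤ w := hmin ⟨⟨hw.1, hw.2.trans (hv.2.trans ht.2)⟩, e⟩
    have h2 : v = t := le_antisymm hv.2 (h1.trans hw.2)
    rw [h2, hyt'] at hcon
    exact hcon le_rfl
  have can := P.can
  have s1 := short_of_avoid (f := fun v => P.an (η v).1 + 1 * (η v).2) (by fun_prop) ht.1 φ₁ (by
      intro v hv k e
      have h1 := hle _ (hfwd _ (hηV v))
      have h5 := hlow v hv
      simp only [shf, fw] at h1
      rw [e, P.out_int (Or.inl rfl)] at h1
      linarith [k1 (η v).2 (hle _ (hηV v)) (by linarith [hy v])])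
  have s2 := short_of_avoid (f := fun v => P.an ((η v).1 + -d * y v) + -1 * (η v).2)
    (by fun_prop) ht.1 φ₂ (by
      intro v hv k e
      have h1 := hle _ (hbwd _ (hηV v))
      have h5 := hlow v hv
      simp only [shf, fw, hy] at h1
      rw [e, P.out_int (Or.inr rfl)] at h1
      linarith [k2 (η v).2 (hle _ (hηV v)) (by linarith [hy v])])
  obtain ⟨a11, a12⟩ := (η t).2.2
  obtain ⟨a21, a22⟩ := (η 0).2.2
  have b1 := P.near (x := (η 0).1) (y := (η t).1) (by linarith [(abs_lt.mp s1).1, pi_pos])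
  have b2 := P.near (x := (η t).1 + -d * y t) (y := (η 0).1 + -d * y 0)
    (by linarith [(abs_lt.mp s2).2, pi_pos])
  rw [div_le_iff₀ δ0] at hd
  have d0 : 0 < d := (mul_pos_iff_of_pos_right δ0).1 (by linarith [P.lp])
  have : d * (δ / 2) ≤ d * (y 0 - y t) := mul_le_mul_of_nonneg_left (by linarith) d0.le
  linarith

theorem loops {ε : ℝ} (hε : 0 < ε) : ∃ d₀ : ℝ, ∀ d, d₀ ≤ d → ∀ c : C(Circle, Phase L),
    ¬ c.Nullhomotopic → (cylShift L d ∘ P.bil) '' range c = range c →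
    ∃ (z : Circle) (g : Ioo (0 : ℝ) π), (∀ x, (P.bil (x, g)).2 = g) ∧
      |((c z).2 : ℝ) - g| < ε := by
  obtain ⟨d₀, hb⟩ := P.barrier hε
  refine ⟨d₀, fun d hd c hc hinv => ?_⟩
  have hT : ∀ p, (cylShift L d ∘ P.bil) (pj L p) = pj L (shf d (P.fw 1 p)) := fun p => by
    rw [Function.comp_apply, bil_pj]; rfl
  have hcont : Continuous fun z => ((c z).2 : ℝ) := by fun_prop
  obtain ⟨z₁, -, h₁⟩ := isCompact_univ.exists_isMaxOn univ_nonempty hcont.continuousOn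
  obtain ⟨z₀, -, h₀⟩ := isCompact_univ.exists_isMinOn univ_nonempty hcont.continuousOn
  obtain ⟨p, ⟨z, hz⟩, g, hg, h1, h2⟩ := hb d hd (pj L ⁻¹' range c) (c z₁).2 (cot (c z₀).2)
    (c z₁).2.2.2
    (by
      rintro p ⟨z, hz⟩
      have : ((c z).2 : ℝ) ≤ (c z₁).2 := h₁ (mem_univ z)
      rwa [hz] at this)
    (fun p => ⟨fun h => by
      rw [mem_preimage, ← hinv] at h
      obtain ⟨q, hq, e⟩ := h
      obtain ⟨q, rfl⟩ := pj_surj q
      rw [hT, pj_iff] at e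
      obtain ⟨k, hk⟩ := e
      rw [← shf_dk, ← P.fw_dk (Or.inl rfl)] at hk
      have h2 := congrArg (fun x => P.fw (-1) (shf (-d) x)) hk
      simp only [shf_shf, P.fw_fw (Or.inl rfl)] at h2
      rw [mem_preimage, ← pj_iff.mpr ⟨k, h2⟩]
      exact hq, fun h => by
      rw [mem_preimage, ← hT, ← hinv]
      exact mem_image_of_mem _ h⟩)
    (fun p q hq hj => by
      have hge : ((c z₀).2 : ℝ) ≤ p.2 := by
        by_contra hcon
        refine hc (separation P.lp.ne' c (p := pj L p) (q := pj L q) (fun z => ?_)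
          (fun z => ?_) ((hj.map cpj).mono ?_))
        · exact (not_le.mp hcon).trans_le (h₀ (mem_univ z))
        · exact lt_of_le_of_lt (h₁ (mem_univ z)) hq
        · rintro _ ⟨x, hx, rfl⟩
          exact hx
      rcases hge.eq_or_lt with e | l
      · rw [e]
      · exact (cot_lt (c z₀).2.2 p.2.2 l).le)
  exact ⟨z, ⟨g, hg⟩, (P.pres ⟨g, hg⟩).2 h1, by rw [hz]; exact h2⟩

end Par

end Pool.Agent.MP_5d0005_an.Gn
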