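import Pool.Agent.MP_5d0005_an.Gn.Th

/-! Fourier modes of the radius of curvature and the preserved levels. -/

set_option autoImplicit false

open Set Real Function Filter Topology
open scoped ComplexConjugate

namespace Pool.Agent.MP_5d0005_an.Gn

variable {γ : ℝ → ℂ} {L : ℝ}

lemma duv (k φ : ℝ) : HasDerivAt (fun x => uv (k * x)) (uv (k * φ) * (k * Complex.I)) φ :=
  ((((hasDerivAt_id φ).const_mul k).ofReal_comp).mul_const Complex.I).cexp.congr_deriv
    (by simp [uv])

lemma uv_per (n : ℤ) (x : ℝ) : uv (n * (x + 2 * π)) = uv (n * x) := by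
  rw [mul_add, uv_int]

lemma zfin {n : ℤ} (h : 2 ≤ |n|) :
    {g ∈ Icc 0 π | n * sin g * cos (n * g) - cos g * sin (n * g) = 0}.Finite := by
  have n0 : (n : ℝ) ≠ 0 := by
    rintro h0
    rw [Int.cast_eq_zero.1 h0] at h
    simp at h
  have h2 : (2 : ℝ) ≤ |(n : ℝ)| := by exact_mod_cast h
  have an : AnalyticOnNhd ℝ (fun g : ℝ => n * sin g * cos (n * g) - cos g * sin (n * g)) univ :=
    fun x _ => by fun_prop
  have h3 := an.preimage_zero_mem_codiscrete (x := π / n) (by
    simp only [mul_div_cancel₀ _ n0, cos_pi, sin_pi, mul_zero, sub_zero, mul_neg, mul_one,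
      neg_ne_zero]
    refine mul_ne_zero n0 fun h0 => ?_
    have h4 : |π / n| < π := by
      rw [abs_div, abs_of_pos pi_pos, div_lt_iff₀ (by linarith)]
      nlinarith [pi_pos]
    have := (sin_eq_zero_iff_of_lt_of_lt (abs_lt.1 h4).1 (abs_lt.1 h4).2).1 h0
    exact div_ne_zero pi_ne_zero n0 this)
  refine (isCompact_Icc.finite_sdiff_of_mem_codiscreteWithin
    (codiscreteWithin_mono (subset_univ (Icc 0 π)) h3)).subset fun g hg => ⟨hg.1, ?_⟩
  simpa using hg.2

namespace Par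

variable (P : Par γ L)

/-- Fourier modes of the radius of curvature -/
noncomputable def co (n : ℤ) : ℂ := ∫ θ in (0 : ℝ)..2 * π, (P.ra θ : ℂ) * uv (n * θ)

lemma cra : Continuous P.ra := P.dra.continuous

lemma sh (n : ℤ) (a : ℝ) :
    ∫ φ in (0 : ℝ)..2 * π, (P.ra (φ + a) : ℂ) * uv (n * φ) = uv (-(n * a)) * P.co n := by
  have h1 : Periodic (fun θ => (P.ra θ : ℂ) * uv (n * θ)) (2 * π) := fun θ => by
    simp only [P.ra_per θ, uv_per]
  have h2 := h1.intervalIntegral_add_eq a 0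
  have h3 := intervalIntegral.integral_comp_add_right (a := 0) (b := 2 * π)
    (fun θ => (P.ra θ : ℂ) * uv (n * θ)) a
  rw [zero_add, add_comm (2 * π), h2, zero_add] at h3
  rw [co, ← h3, ← intervalIntegral.integral_const_mul]
  refine intervalIntegral.integral_congr fun φ _ => ?_
  rw [mul_left_comm, ← uv_add]
  congr 2
  ring

lemma four {g : ℝ} (h : ∀ φ, P.D φ g = 0) (n : ℤ) :
    P.co n * (n * sin g * cos (n * g) - cos g * sin (n * g) : ℝ) = 0 := by
  obtain ⟨W, hW⟩ : ∃ W : ℝ → ℂ, W = fun φ => conj (uv φ) * (P.ov (φ + g) - P.ov (φ - g)) := ⟨_, rfl⟩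
  have d1 : ∀ φ, HasDerivAt W
      (-Complex.I * W φ + (P.ra (φ + g) * uv g - P.ra (φ + -g) * uv (-g))) φ := fun φ => by
    have h0 : HasDerivAt uv (uv φ * Complex.I) φ := by simpa using duv 1 φ
    have h1 : HasDerivAt (fun φ => conj (uv φ)) (conj (uv φ * Complex.I)) φ := h0.star
    have h2 := h1.mul
      (((P.dov (φ + g)).comp_add_const φ g).sub ((P.dov (φ - g)).comp_sub_const φ g))
    rw [hW]
    refine h2.congr_deriv ?_
    simp only [Pi.sub_apply, map_mul, Complex.conj_I]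
    rw [uv_add, sub_eq_add_neg φ g, uv_add]
    linear_combination (P.ra (φ + g) * uv g - P.ra (φ + -g) * uv (-g)) * conj_uv_mul φ
  have i0 : ∀ φ, (W φ).im = 0 := fun φ => by rw [hW, ← h φ, D_eq]
  have e1 : ∀ φ, W φ = (P.ra (φ + g) + P.ra (φ + -g)) * (sin g : ℝ) := fun φ => by
    have h1 : HasDerivAt (fun φ => (W φ).im) _ φ := Complex.imCLM.hasFDerivAt.comp_hasDerivAt φ (d1 φ)
    rw [funext i0] at h1
    have h2 := h1.unique (hasDerivAt_const φ (0 : ℝ))
    rw [uv_eq g, uv_eq (-g)] at h2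
    apply Complex.ext
    · simp [-Complex.ofReal_sin, -Complex.ofReal_cos] at h2 ⊢
      linarith
    · simp [-Complex.ofReal_sin, i0]
  have d2 : ∀ φ, HasDerivAt (fun φ => uv (n * φ) * W φ)
      ((n * Complex.I * (sin g : ℝ) + (cos g : ℝ)) * (P.ra (φ + g) * uv (n * φ)) +
        (n * Complex.I * (sin g : ℝ) - (cos g : ℝ)) * (P.ra (φ + -g) * uv (n * φ))) φ := fun φ => by
    refine ((duv n φ).mul (d1 φ)).congr_deriv ?_
    rw [e1, uv_eq g, uv_eq (-g), cos_neg, sin_neg]
    push_cast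
    ring
  have c1 := P.cra
  have c2 := cuv
  have h1 := intervalIntegral.integral_eq_sub_of_hasDerivAt (a := 0) (b := 2 * π)
    (fun φ _ => d2 φ) (Continuous.intervalIntegrable (by fun_prop) _ _)
  rw [intervalIntegral.integral_add (Continuous.intervalIntegrable (by fun_prop) _ _)
    (Continuous.intervalIntegrable (by fun_prop) _ _), intervalIntegral.integral_const_mul,
    intervalIntegral.integral_const_mul, sh, sh, e1, e1, ← zero_add (2 * π), uv_per,
    add_right_comm 0 _ g, add_right_comm 0 _ (-g), P.ra_per, P.ra_per, sub_self, mul_neg, neg_neg,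
    uv_eq, uv_eq, cos_neg, sin_neg] at h1
  push_cast at h1 ⊢
  linear_combination (-Complex.I / 2) * h1 + (P.co n * (n * Complex.sin g * Complex.cos (n * g) -
    Complex.cos g * Complex.sin (n * g))) * Complex.I_mul_I

lemma co_eq (n : ℤ) : P.co n = ∫ s in (0 : ℝ)..L, deriv γ s ^ n := by
  have e : (fun s => deriv γ s ^ n) = fun s => uv (n * P.an s) := funext fun s => by
    simp only [P.dv, uv]
    rw [← Complex.exp_int_mul]
    congr 1
    push_cast
    ring
  have c1 := P.can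
  have c2 := cuv
  have h1 := intervalIntegral.integral_deriv_smul_comp (a := 0) (b := 2 * π)
    (g := fun s => uv (n * P.an s)) (fun x _ => P.dar x) P.cra.continuousOn (by fun_prop)
  have h2 : Periodic (fun s => uv (n * P.an s)) L := fun s => by
    have := P.per s 1
    simp only [Int.cast_one, one_mul] at this
    simp only [this, uv_per]
  have h3 := P.ar_int 0 1
  have h4 := h2.intervalIntegral_add_eq (P.ar 0) 0
  simp only [Int.cast_one, one_mul, zero_add] at h3 h4
  rw [e, ← h4, ← h3, ← h1, co]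
  simp only [comp_apply, P.an_ar, Complex.real_smul]

lemma co_one {n : ℤ} (h : |n| = 1) : P.co n = 0 := by
  have h3 := P.ov_int 0 1
  simp only [Int.cast_one, one_mul, zero_add] at h3
  have c1 := P.cra
  have c2 := cuv
  rcases (abs_eq zero_le_one).1 h with rfl | rfl
  · simp only [co, Int.cast_one, one_mul]
    rw [intervalIntegral.integral_eq_sub_of_hasDerivAt (fun φ _ => P.dov φ)
      (Continuous.intervalIntegrable (by fun_prop) _ _), h3, sub_self]
  · have d : ∀ φ, HasDerivAt (fun φ => conj (P.ov φ)) (P.ra φ * uv ((-1 : ℤ) * φ)) φ := fun φ => by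
      refine (P.dov φ).star.congr_deriv ?_
      simp [uv, ← Complex.exp_conj]
    rw [co, intervalIntegral.integral_eq_sub_of_hasDerivAt (fun φ _ => d φ)
      (Continuous.intervalIntegrable (by fun_prop) _ _), h3, sub_self]

lemma round (h : ∀ n : ℤ, 2 ≤ |n| → P.co n = 0) (θ : ℝ) : P.ra θ = P.ra 0 := by
  have := Fact.mk two_pi_pos
  have h1 : Periodic (fun θ => (P.ra θ : ℂ)) (2 * π) := fun θ => by simp only [P.ra_per θ]
  let f : C(AddCircle (2 * π), ℂ) :=
    ⟨h1.lift, (Complex.continuous_ofReal.comp P.cra).quotient_liftOn' _⟩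
  have h2 : ∀ n : ℤ, n ≠ 0 → fourierCoeff f n = 0 := fun n hn => by
    have h3 : P.co (-n) = 0 := by
      rcases (Int.one_le_abs (neg_ne_zero.2 hn)).eq_or_lt with l | l
      · exact P.co_one l.symm
      · exact h _ l
    rw [fourierCoeff_eq_intervalIntegral _ _ 0, zero_add]
    refine smul_eq_zero_of_right _ (Eq.trans ?_ h3)
    refine intervalIntegral.integral_congr fun x _ => ?_
    simp only [fourier_coe_apply, smul_eq_mul, uv]
    rw [mul_comm]
    congr 2
    have : (π : ℂ) ≠ 0 := by exact_mod_cast pi_ne_zero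
    push_cast
    field_simp
  have h4 : ∀ x, f x = fourierCoeff f 0 := fun x => by
    have h5 := has_pointwise_sum_fourier_series_of_summable (hasSum_single 0 h2).summable x
    simpa using h5.unique (hasSum_single 0 fun n hn => by rw [h2 n hn, zero_smul])
  have h6 : (P.ra θ : ℂ) = P.ra 0 := (h4 (θ : ℝ)).trans (h4 (0 : ℝ)).symm
  exact_mod_cast h6

lemma round_D (h : ∀ θ, P.ra θ = P.ra 0) (φ a : ℝ) : P.D φ a = 0 := by
  have d : ∀ a, HasDerivAt (fun a => P.H φ (1 * a) - P.H φ (-1 * a)) 0 a := fun a =>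
    ((P.dH (Or.inl rfl) φ a).sub (P.dH (Or.inr rfl) φ a)).congr_deriv (by
      rw [h, h (φ + -1 * a), sub_self])
  simpa [D] using is_const_of_deriv_eq_zero (fun a => (d a).differentiableAt)
    (fun a => (d a).deriv) a 0

lemma round_T (h : ∀ θ, P.ra θ = P.ra 0) (d : ℝ) (x : AddCircle L) (g : Ioo (0 : ℝ) π) :
    (cylShift L d ∘ P.bil) (x, g) = (x + (2 * P.ra 0 * g + d * cot g : ℝ), g) := by
  obtain ⟨s, rfl⟩ := QuotientAddGroup.mk_surjective x
  have d1 : ∀ a, HasDerivAt (fun a => P.ar a - P.ra 0 * a) 0 a := fun a =>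
    ((P.dar a).sub ((hasDerivAt_id a).const_mul (P.ra 0))).congr_deriv (by simp [h a])
  have h1 := is_const_of_deriv_eq_zero (fun a => (d1 a).differentiableAt) (fun a => (d1 a).deriv)
    (P.an s + 1 * g + 1 * g) (P.an s)
  have h2 : P.out 1 (P.an s + 1 * g) g = g := (P.out_unique (Or.inl rfl) (by
    simpa [D, sub_eq_zero] using P.round_D h (P.an s + g) g)).symm
  have h3 : P.fw 1 (s, g) = (s + 2 * P.ra 0 * g, g) := by
    simp only [fw, h2]
    rw [P.ar_an] at h1
    congr 1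
    linarith
  have h4 := P.bil_pj (s, g)
  rw [h3] at h4
  rw [comp_apply, show ((s : AddCircle L), g) = pj L (s, g) from rfl, h4]
  simp only [cylShift, pj, AddCircle.coe_add, add_assoc]

lemma round_flat (h : ∀ θ, P.ra θ = P.ra 0) {d : ℝ} (hd : 2 * P.ra 0 < d)
    (c : C(Circle, Phase L)) (inj : Injective c)
    (hinv : (cylShift L d ∘ P.bil) '' range c = range c) (z w : Circle) : (c z).2 ≤ (c w).2 := by
  by_contra hn
  have lt : ((c w).2 : ℝ) < (c z).2 := not_le.1 hn
  have lp := P.lp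
  have := Fact.mk lp
  let E := AddCircle.homeomorphCircle lp.ne'
  let ω : Ioo (0 : ℝ) π → ℝ := fun g => (2 * P.ra 0 * g + d * cot g) / L
  have cω : Continuous ω := by
    have := continuous_cot
    fun_prop
  have h1 : ω (c z).2 < ω (c w).2 := by
    have h2 := le_cot (c w).2.2 (c z).2.2
    have h3 := cot_lt (c w).2.2 (c z).2.2 lt
    rw [abs_of_neg (sub_neg.2 lt), abs_of_pos (sub_pos.2 h3)] at h2
    refine div_lt_div_of_pos_right ?_ lp
    nlinarith [P.pos 0]
  obtain ⟨F, hF, hc⟩ := cut (ι := Unit) (y := fun x => (E (c x.2).1 : ℂ).re) (by fun_prop)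
    (show (-1 : ℝ) < 1 by norm_num)
  have h2 : {y ∈ Ioo (ω (c z).2) (ω (c w).2) | Irrational y} ⊆ (fun x => ω (c x.2).2) '' F := by
    rintro y ⟨hy, irr⟩
    obtain ⟨v, rfl⟩ := intermediate_value_univ z w (f := fun v => ω (c v).2) (by fun_prop)
      (Ioo_subset_Icc_self hy)
    have h3 := denseRange_zsmul_iff_nsmul.1 (AddCircle.denseRange_zsmul_coe_iff.2 irr)
    have h4 : ∀ u, ((c v).1 + u, (c v).2) ∈ range c := fun u => by
      refine h3.induction_on u ((isCompact_range c.continuous).isClosed.preimage (by fun_prop))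
        fun n => ?_
      induction n with
      | zero => simp
      | succ n ih =>
        rw [succ_nsmul, ← add_assoc, ← P.round_T h, ← hinv]
        exact mem_image_of_mem _ ih
    have h5 : ∀ u, (u, (c v).2) ∈ range c := fun u => by simpa using h4 (u - (c v).1)
    let c' : C(Unit × Circle, Phase L) := c.comp ContinuousMap.snd
    have emb := (c'.continuous.isClosedEmbedding (inj.comp fun x y h => Prod.ext rfl h)).isInducing
    have e2 : c' '' (c' ⁻¹' range fun u => (u, (c v).2)) = range fun u => (u, (c v).2) :=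
      image_preimage_eq_of_subset (range_subset_iff.2 fun u =>
        (h5 u).elim fun x hx => ⟨((), x), hx⟩)
    have h6 : ∀ t : Circle, ∃ x ∈ c' ⁻¹' range fun u => (u, (c v).2), E (c x.2).1 = t := fun t => by
      obtain ⟨x, hx⟩ := h5 (E.symm t)
      exact ⟨((), x), ⟨_, hx.symm⟩, by simp [hx]⟩
    obtain ⟨q, ⟨u, q1⟩, q2⟩ := hc _ (emb.isPreconnected_image.1
      (e2.symm ▸ isPreconnected_range (by fun_prop)))
      ((h6 (-1)).imp fun x hx => ⟨hx.1, by simp [hx.2]⟩)
      ((h6 1).imp fun x hx => ⟨hx.1, by simp [hx.2]⟩)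
    exact ⟨q, q2, congrArg ω (congrArg Prod.snd q1).symm⟩
  obtain ⟨y, hy, -, -⟩ := exists_irrational_btwn h1 |>.imp fun y hy => And.intro
    (show y ∈ {y ∈ Ioo (ω (c z).2) (ω (c w).2) | Irrational y} from ⟨hy.2, hy.1⟩) hy.2
  obtain ⟨m, ⟨m1, -⟩, m2⟩ := exists_max_image _ id ((hF.image _).subset h2) ⟨y, hy⟩
  obtain ⟨u, u1, u2, u3⟩ := exists_irrational_btwn m1.2
  exact (m2 u ⟨⟨m1.1.trans u2, u3⟩, u1⟩).not_gt u2

theorem one_level {ε : ℝ} (hε : 0 < ε) : ∃ d₀ : ℝ, ∀ d, d₀ ≤ d → ∀ c : C(Circle, Phase L),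
    Injective c → ¬ c.Nullhomotopic → (cylShift L d ∘ P.bil) '' range c = range c →
    ∃ g : Ioo (0 : ℝ) π, (∀ x, (P.bil (x, g)).2 = g) ∧ ∀ z, |((c z).2 : ℝ) - g| < ε := by
  by_cases h : ∀ n : ℤ, 2 ≤ |n| → P.co n = 0
  · have h1 := P.round h
    refine ⟨2 * P.ra 0 + 1, fun d hd c inj _ hinv => ⟨(c 1).2, (P.pres _).2 fun φ =>
      P.round_D h1 φ _, fun z => ?_⟩⟩
    have h2 := P.round_flat h1 (show 2 * P.ra 0 < d by linarith) c inj hinv
    rwa [le_antisymm (h2 z 1) (h2 1 z), sub_self, abs_zero]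
  push Not at h
  obtain ⟨n, hn, h0⟩ := h
  have hK : {g : Ioo (0 : ℝ) π | ∀ x, (P.bil (x, g)).2 = g}.Finite :=
    ((zfin hn).preimage Subtype.val_injective.injOn).subset fun g hg =>
      ⟨Ioo_subset_Icc_self g.2, by
        exact_mod_cast (mul_eq_zero.1 (P.four ((P.pres g).1 hg) n)).resolve_left h0⟩
  have h1 : ∀ᶠ η in 𝓝[>] (0 : ℝ), ∀ g ∈ {g : Ioo (0 : ℝ) π | ∀ x, (P.bil (x, g)).2 = g},
      ∀ g' ∈ {g : Ioo (0 : ℝ) π | ∀ x, (P.bil (x, g)).2 = g}, g ≠ g' → η ≤ |(g : ℝ) - g'| / 2 :=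
    (eventually_all_finite hK).2 fun g _ => (eventually_all_finite hK).2 fun g' _ => by
      by_cases e : g = g'
      · exact .of_forall fun _ h => absurd e h
      · filter_upwards [Ioc_mem_nhdsGT (half_pos (abs_pos.2 (sub_ne_zero.2
          (Subtype.val_injective.ne e))))] with η hη _ using hη.2
  obtain ⟨η, h2, η0, η1⟩ := (h1.and (Ioc_mem_nhdsGT hε)).exists
  obtain ⟨d₀, h3⟩ := P.local_curves η0
  refine ⟨d₀, fun d hd c inj hc hinv => ?_⟩
  have h4 := h3 d hd c inj hc hinv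
  obtain ⟨g, g1, g2⟩ := h4 1
  refine ⟨g, g1, fun z => lt_of_lt_of_le (not_le.1 fun hz => ?_) η1⟩
  obtain ⟨v, hv⟩ := intermediate_value_univ 1 z (f := fun v => |((c v).2 : ℝ) - g|) (by fun_prop)
    ⟨g2.le, hz⟩
  obtain ⟨g', k1, k2⟩ := h4 v
  have h5 := abs_sub_le (g' : ℝ) (c v).2 g
  rw [abs_sub_comm (g' : ℝ) (c v).2] at h5
  have h6 := h2 g' k1 g g1 fun e => by
    rw [e] at k2
    exact k2.ne hv
  simp only at hv
  linarith

end Par

end Pool.Agent.MP_5d0005_an.Gn
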