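import Pool.Agent.MP_5d0005_an.Dyn

/-! The tangent angle parametrisation of an arbitrary table. -/

set_option autoImplicit false

open Set Real
open scoped ContDiff ComplexConjugate

namespace Pool.Agent.MP_5d0005_an.Gn

/-- arc length `ar`, tangent angle `an` and radius of curvature `ra` -/
structure Par (γ : ℝ → ℂ) (L : ℝ) where
  ar : ℝ → ℝ
  an : ℝ → ℝ
  ra : ℝ → ℝ
  lp : 0 < L
  ar_an : ∀ s, ar (an s) = s
  an_ar : ∀ θ, an (ar θ) = θ
  can : Continuous an
  dar : ∀ θ, HasDerivAt ar (ra θ) θ
  pos : ∀ θ, 0 < ra θ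
  dra : Differentiable ℝ ra
  per : ∀ (s : ℝ) (k : ℤ), an (s + k * L) = an s + k * (2 * π)
  gper : Function.Periodic γ L
  dg : ∀ s, HasDerivAt γ (uv (an s)) s

lemma ceq_iff {L s t : ℝ} :
    (s : AddCircle L) = (t : AddCircle L) ↔ ∃ k : ℤ, t = s + k * L := by
  rw [QuotientAddGroup.eq]
  constructor
  · rintro ⟨k, hk⟩
    refine ⟨k, ?_⟩
    simp only [zsmul_eq_mul] at hk
    linarith
  · rintro ⟨k, hk⟩
    refine ⟨k, ?_⟩
    simp only [zsmul_eq_mul]
    linarith

lemma uv_int (a : ℝ) (k : ℤ) : uv (a + k * (2 * π)) = uv a := by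
  rw [uv_eq, uv_eq, sin_add_int_mul_two_pi, cos_add_int_mul_two_pi]

lemma exists_angle {γ : ℝ → ℂ} {L : ℝ} (h : IsTable γ L) : ∃ an κ : ℝ → ℝ,
    Differentiable ℝ κ ∧ (∀ s, 0 < κ s) ∧ (∀ s, HasDerivAt an (κ s) s) ∧
      ∀ s, deriv γ s = uv (an s) := by
  have s1 : ContDiff ℝ ∞ (deriv γ) := h.smooth.iterate_deriv 1
  have s2 : ContDiff ℝ ∞ (deriv (deriv γ)) := s1.iterate_deriv 1
  have d1 : Differentiable ℝ (deriv γ) := s1.differentiable (by simp)
  have d2 : Differentiable ℝ (deriv (deriv γ)) := s2.differentiable (by simp)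
  have dc : ∀ s, HasDerivAt (fun s => conj (deriv γ s)) (conj (deriv (deriv γ) s)) s :=
    fun s => (d1 s).hasDerivAt.star
  set κ : ℝ → ℝ := fun s => (conj (deriv γ s) * deriv (deriv γ) s).im with hκ
  have dκ : Differentiable ℝ κ := fun s =>
    Complex.imCLM.differentiableAt.comp s ((dc s).differentiableAt.mul (d2 s))
  have n1 : ∀ s, conj (deriv γ s) * deriv γ s = 1 := fun s => by
    rw [Complex.conj_mul', h.unit_speed]; simp
  have e1 : ∀ s, deriv (deriv γ) s = deriv γ s * (κ s * Complex.I) := fun s => by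
    have a1 := (dc s).mul (d1 s).hasDerivAt
    have a2 : (fun s => conj (deriv γ s)) * deriv γ = fun _ => (1 : ℂ) := funext n1
    rw [a2] at a1
    have a3 := a1.unique (hasDerivAt_const s (1 : ℂ))
    have a4 : conj (deriv γ s) * deriv (deriv γ) s = κ s * Complex.I := by
      have := congrArg Complex.re a3
      apply Complex.ext
      · simp only [Complex.add_re, Complex.mul_re, Complex.conj_re, Complex.conj_im,
          Complex.zero_re] at this ⊢
        simp
        linarith
      · simp [hκ]
    rw [← a4]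
    linear_combination (-deriv (deriv γ) s) * n1 s
  set an : ℝ → ℝ := fun s => Complex.arg (deriv γ 0) + ∫ x in (0 : ℝ)..s, κ x with han
  have da : ∀ s, HasDerivAt an (κ s) s := fun s =>
    (dκ.continuous.integral_hasStrictDerivAt 0 s).hasDerivAt.const_add _
  refine ⟨an, κ, dκ, h.curvature_pos, da, fun s => ?_⟩
  have dw : ∀ s, HasDerivAt (fun s => deriv γ s * uv (-an s)) 0 s := fun s => by
    have a1 : HasDerivAt (fun s => uv (-an s)) (uv (-an s) * (((-κ s : ℝ) : ℂ) * Complex.I)) s :=
      (((da s).neg.ofReal_comp).mul_const Complex.I).cexp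
    refine ((d1 s).hasDerivAt.mul a1).congr_deriv ?_
    rw [e1]
    push_cast
    ring
  have c1 := is_const_of_deriv_eq_zero (fun s => (dw s).differentiableAt)
    (fun s => (dw s).deriv) s 0
  have c2 : deriv γ 0 = uv (an 0) := by
    have := Complex.norm_mul_exp_arg_mul_I (deriv γ 0)
    rw [h.unit_speed] at this
    simpa [han, uv] using this.symm
  have c3 : ∀ a, uv a * uv (-a) = 1 := fun a => by rw [← uv_add]; simp [uv]
  simp only [c2, c3] at c1
  linear_combination uv (an s) * c1 - deriv γ s * c3 (an s)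

theorem exists_par {γ : ℝ → ℂ} {L : ℝ} (h : IsTable γ L) : Nonempty (Par γ L) := by
  obtain ⟨an, κ, dκ, κp, da, hd⟩ := exists_angle h
  have lp := h.length_pos
  have can : Continuous an := continuous_iff_continuousAt.2 fun s => (da s).continuousAt
  have mo : StrictMono an := strictMono_of_deriv_pos fun s => by rw [(da s).deriv]; exact κp s
  have p1 : ∀ s, an (s + L) = an s + 2 * π := fun s => by
    have a1 : deriv γ (s + L) = deriv γ s := by
      rw [← deriv_comp_add_const]
      congr 1
      exact funext h.periodic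
    rw [hd, hd] at a1
    obtain ⟨k, hk⟩ := uv_eq_iff a1
    have a2 := mo (show s < s + L by linarith)
    have a3 : (0 : ℝ) < k := by
      have := two_pi_pos
      by_contra hc
      nlinarith
    have a4 : 0 < k := by exact_mod_cast a3
    have a5 : k ≤ 1 := by
      by_contra hc
      have a6 : (2 : ℝ) ≤ k := by exact_mod_cast (by omega : 2 ≤ k)
      obtain ⟨t, ht, e⟩ := intermediate_value_Ioo (show s ≤ s + L by linarith) can.continuousOn
        (show an s + 2 * π ∈ Ioo _ _ from ⟨by linarith [two_pi_pos], by nlinarith [two_pi_pos]⟩)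
      have hne : (s : AddCircle L) ≠ (t : AddCircle L) := fun e' => by
        obtain ⟨j, hj⟩ := ceq_iff.1 e'
        have b1 : (0 : ℝ) < j := by
          by_contra hc
          nlinarith [ht.1]
        have b2 : (j : ℝ) < 1 := by
          by_contra hc
          nlinarith [ht.2]
        have b3 : 0 < j := by exact_mod_cast b1
        have b4 : j < 1 := by exact_mod_cast b2
        omega
      have b1 := h.strictly_convex s t hne
      have b2 := h.strictly_convex t s hne.symm
      have b3 := uv_int (an s) 1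
      rw [Int.cast_one, one_mul, ← e, ← hd, ← hd] at b3
      rw [b3, ← neg_sub, mul_neg, Complex.neg_im] at b2
      linarith
    rw [hk, show k = 1 by omega, Int.cast_one, one_mul]
  have p2 : ∀ (s : ℝ) (k : ℤ), an (s + k * L) = an s + k * (2 * π) := fun s k => by
    have a1 : Function.Periodic (fun s => an s - 2 * π / L * s) L := fun s => by
      simp only [p1]
      field_simp
      ring
    have a2 := a1.int_mul k s
    have a3 : 2 * π / L * (s + k * L) = 2 * π / L * s + k * (2 * π) := by field_simp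
    simp only [a3] at a2
    linarith
  have su : Function.Surjective an := fun θ => by
    obtain ⟨n, hn⟩ := exists_nat_ge (|θ - an 0| / (2 * π))
    rw [div_le_iff₀ two_pi_pos, abs_le] at hn
    have a1 := p2 0 n
    have a2 := p2 0 (-n)
    push_cast at a1 a2
    exact mem_range_of_exists_le_of_exists_ge can ⟨_, by rw [a2]; linarith [hn.1]⟩
      ⟨_, by rw [a1]; linarith [hn.2]⟩
  let E : ℝ ≃ₜ ℝ := (mo.orderIsoOfSurjective an su).toHomeomorph
  have dar : ∀ θ, HasDerivAt E.symm (κ (E.symm θ))⁻¹ θ := fun θ =>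
    HasDerivAt.of_local_left_inverse E.symm.continuous.continuousAt (da _) (κp _).ne'
      (Filter.Eventually.of_forall E.apply_symm_apply)
  exact ⟨⟨E.symm, an, fun θ => (κ (E.symm θ))⁻¹, lp, E.symm_apply_apply, E.apply_symm_apply, can,
    dar, fun θ => inv_pos.2 (κp _),
    fun θ => ((dκ _).comp θ (dar θ).differentiableAt).inv (κp _).ne', p2, h.periodic,
    fun s => hd s ▸ (h.smooth.differentiable (by simp) s).hasDerivAt⟩⟩

end Pool.Agent.MP_5d0005_an.Gn
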