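import Pool.Agent.MP_5d0005_an.Gn.Ar

/-! Periodic simple closed curves are thin away from the preserved levels. -/

set_option autoImplicit false

open Set Real Function

namespace Pool.Agent.MP_5d0005_an.Gn

variable {γ : ℝ → ℂ} {L : ℝ}

/-- arcs of `Γ` that cross the strip -/
def Cr (Γ : Set (Phase L)) (lo hi : ℝ) (A : Set (Phase L)) : Prop :=
  ∃ (η : ℝ → Cover) (u v : ℝ), Continuous η ∧ InjOn (pj L ∘ η) (Icc u v) ∧
    A = (pj L ∘ η) '' Icc u v ∧ A ⊆ Γ ∧ (∃ s ∈ Icc u v, cot (η s).2 ≤ lo) ∧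
    ∃ t ∈ Icc u v, hi ≤ cot (η t).2

lemma step {Γ : Set (Phase L)} {lo hi : ℝ} {S : Cover → Cover} {T : Phase L → Phase L}
    (hS : Continuous S) (hT : Injective T) (e : ∀ p, T (pj L p) = pj L (S p)) (hΓ : MapsTo T Γ Γ)
    {η : ℝ → Cover} {u v u' v' : ℝ} (hη : Continuous η) (inj : InjOn (pj L ∘ η) (Icc u v))
    (sub : (pj L ∘ η) '' Icc u v ⊆ Γ) (h1 : u ≤ u') (h2 : u' ≤ v') (h3 : v' ≤ v) {f : ℝ → ℝ}
    (hf : Continuous f) (big : 8 * π ≤ |f v' - f u'|) {φ ψ : ℝ}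
    (up : ∀ w ∈ Icc u' v', ∀ k : ℤ, f w = φ + k * (2 * π) → hi ≤ cot (S (η w)).2)
    (dn : ∀ w ∈ Icc u' v', ∀ k : ℤ, f w = ψ + k * (2 * π) → cot (S (η w)).2 ≤ lo) :
    ∃ B : Fin 3 → Set (Phase L), (∀ i, Cr Γ lo hi (B i) ∧ B i ⊆ T '' ((pj L ∘ η) '' Icc u v)) ∧
      Pairwise (Disjoint on B) := by
  obtain ⟨a, b, k1, k2⟩ := tri hf h2 big
  have e1 : pj L ∘ S ∘ η = T ∘ pj L ∘ η := funext fun w => (e _).symm
  have s1 : ∀ i, Icc (a i) (b i) ⊆ Icc u' v' := fun i => Icc_subset_Icc (k1 i).1 (k1 i).2.2.1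
  have s2 : ∀ i, Icc (a i) (b i) ⊆ Icc u v := fun i => (s1 i).trans (Icc_subset_Icc h1 h3)
  have i1 : InjOn (pj L ∘ S ∘ η) (Icc u v) := e1 ▸ hT.comp_injOn inj
  have s3 : ∀ i, (pj L ∘ S ∘ η) '' Icc (a i) (b i) ⊆ T '' ((pj L ∘ η) '' Icc u v) := fun i => by
    rw [e1, image_comp]
    exact image_mono (image_mono (s2 i))
  refine ⟨fun i => (pj L ∘ S ∘ η) '' Icc (a i) (b i), fun i => ⟨⟨S ∘ η, a i, b i, hS.comp hη,
    i1.mono (s2 i), rfl, (s3 i).trans ((image_mono sub).trans hΓ.image_subset), ?_, ?_⟩, s3 i⟩,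
    fun i j hij => disjoint_image_image fun x hx y hy h => ?_⟩
  · obtain ⟨w, hw, k, h⟩ := meet hf (k1 i).2.1 (k1 i).2.2.2 ψ
    exact ⟨w, hw, dn w (s1 i hw) k h⟩
  · obtain ⟨w, hw, k, h⟩ := meet hf (k1 i).2.1 (k1 i).2.2.2 φ
    exact ⟨w, hw, up w (s1 i hw) k h⟩
  · exact disjoint_left.1 (k2 hij) hx (i1 (s2 i hx) (s2 j hy) h ▸ hy)

namespace Par

variable (P : Par γ L)

lemma near5 {x y : ℝ} (h : |P.an x - P.an y| < 10 * π) : |x - y| < 5 * L := by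
  have k : ∀ x y : ℝ, P.an x < P.an y + 10 * π → x < y + 5 * L := fun x y h => by
    have h1 := P.ar_mono h
    have h2 := P.ar_int (P.an y) 5
    rw [show P.an y + 10 * π = P.an y + (5 : ℤ) * (2 * π) by push_cast; ring, h2, P.ar_an,
      P.ar_an] at h1
    exact_mod_cast h1
  have h1 := k x y (by linarith [(abs_lt.1 h).2])
  have h2 := k y x (by linarith [(abs_lt.1 h).1])
  exact abs_lt.2 ⟨by linarith, by linarith⟩

theorem strip {ε : ℝ} (hε : 0 < ε) : ∃ δ : ℝ, 0 < δ ∧ ∀ (d : ℝ) (Γ F : Set (Phase L))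
    (a b : Ioo (0 : ℝ) π), 0 < d → (cylShift L d ∘ P.bil) '' Γ = Γ → F.Finite →
    (∀ A, Cr Γ (cot b) (cot a) A → ∃ x ∈ A, x ∈ F) →
    (∀ g ∈ Ioo 0 π, (∀ φ, P.D φ g = 0) → ε ≤ |a - g|) →
    (∀ g ∈ Ioo 0 π, (∀ φ, P.D φ g = 0) → ε ≤ |b - g|) →
    10 * L ≤ d * (cot a - cot b) → cot a - cot b ≤ δ → ∀ A, ¬ Cr Γ (cot b) (cot a) A := by
  obtain ⟨δ₁, p1, g1⟩ := P.gain (Or.inl rfl) hε
  obtain ⟨δ₂, p2, g2⟩ := P.gain (Or.inr rfl) hε
  obtain ⟨δ₃, p3, g3⟩ := P.loss (Or.inl rfl) hε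
  obtain ⟨δ₄, p4, g4⟩ := P.loss (Or.inr rfl) hε
  refine ⟨min (min δ₁ δ₂) (min δ₃ δ₄), lt_min (lt_min p1 p2) (lt_min p3 p4),
    fun d Γ F a b d0 hΓ hF hit fa fb w1 w2 => ?_⟩
  simp only [le_min_iff] at w2
  obtain ⟨⟨l1, l2⟩, l3, l4⟩ := w2
  obtain ⟨φ₁, k1⟩ := g1 a fa
  obtain ⟨φ₂, k2⟩ := g2 a fa
  obtain ⟨φ₃, k3⟩ := g3 b fb
  obtain ⟨φ₄, k4⟩ := g4 b fb
  have hT : ∀ p, (cylShift L d ∘ P.bil) (pj L p) = pj L (shf d (P.fw 1 p)) := fun p => by
    rw [Function.comp_apply, bil_pj]; rfl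
  obtain ⟨T', hT'⟩ : ∃ T' : Phase L → Phase L,
      ∀ p, T' (pj L p) = pj L (P.fw (-1) (shf (-d) p)) := by
    refine ⟨fun x => pj L (P.fw (-1) (shf (-d) (surjInv pj_surj x))), fun p => ?_⟩
    obtain ⟨k, hk⟩ := pj_iff.mp (surjInv_eq pj_surj (pj L p))
    exact pj_iff.2 ⟨k, by rw [← P.fw_dk (Or.inr rfl), ← shf_dk, ← hk]⟩
  generalize cylShift L d ∘ P.bil = T at hT hΓ
  have i1 : LeftInverse T' T := fun x => by
    obtain ⟨p, rfl⟩ := pj_surj x
    rw [hT, hT', shf_shf, P.fw_fw (Or.inl rfl)]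
  have i2 : LeftInverse T T' := fun x => by
    obtain ⟨p, rfl⟩ := pj_surj x
    have h3 := shf_shf (-d) p
    have h4 := P.fw_fw (Or.inr rfl) (shf (-d) p)
    rw [neg_neg] at h3 h4
    rw [hT', hT, h4, h3]
  have m1 : MapsTo T Γ Γ := fun x hx => hΓ ▸ mem_image_of_mem T hx
  have m2 : MapsTo T' Γ Γ := fun x hx => by
    obtain ⟨y, hy, rfl⟩ := hΓ.ge hx
    rwa [i1]
  have ab : cot b ≤ cot a :=
    sub_nonneg.1 ((mul_pos_iff_of_pos_left d0).1 (by linarith [P.lp])).le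
  refine fam _ (fun β => bif β then T else T') (Bool.forall_bool.2 ⟨i2.injective, i1.injective⟩)
    ?_ F hF hit
  rintro _ ⟨η, u, v, hη, inj, rfl, sub, ⟨s, s1, s2⟩, t, t1, t2⟩
  obtain ⟨y, hy, hyc⟩ : ∃ y : ℝ → ℝ, (∀ t, cot (η t).2 = y t) ∧ Continuous y :=
    ⟨_, fun _ => rfl, continuous_cot.comp (continuous_snd.comp hη)⟩
  rw [hy] at s2 t2
  obtain ⟨u', v', h1, h2, h3, h4, h5⟩ := sub2 hyc ab s1 t1 s2 t2
  have can := P.can
  by_cases c1 : 8 * π ≤ |P.an (η v').1 + 1 * (η v').2 - (P.an (η u').1 + 1 * (η u').2)|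
  · refine ⟨true, step (S := fun p => shf d (P.fw 1 p))
      ((continuous_shf d).comp (P.cfw (Or.inl rfl))) i1.injective hT m1 hη inj sub h1 h2 h3
      (f := fun w => P.an (η w).1 + 1 * (η w).2) (by fun_prop) c1 (φ := φ₁) (ψ := φ₃) ?_ ?_⟩
    · intro w hw k e
      simp only [shf, fw]
      rw [e, P.out_int (Or.inl rfl)]
      exact (k1 _ (hy w ▸ (h5 w hw).2) (by linarith [hy w, (h5 w hw).1])).le
    · intro w hw k e
      simp only [shf, fw]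
      rw [e, P.out_int (Or.inl rfl)]
      exact (k3 _ (hy w ▸ (h5 w hw).1) (by linarith [hy w, (h5 w hw).2])).le
  by_cases c2 : 8 * π ≤ |P.an ((η v').1 + -d * y v') + -1 * (η v').2 -
      (P.an ((η u').1 + -d * y u') + -1 * (η u').2)|
  · refine ⟨false, step (S := fun p => P.fw (-1) (shf (-d) p))
      ((P.cfw (Or.inr rfl)).comp (continuous_shf (-d))) i2.injective hT' m2 hη inj sub h1 h2 h3
      (f := fun w => P.an ((η w).1 + -d * y w) + -1 * (η w).2) (by fun_prop) c2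
      (φ := φ₂) (ψ := φ₄) ?_ ?_⟩
    · intro w hw k e
      simp only [shf, fw, hy]
      rw [e, P.out_int (Or.inr rfl)]
      exact (k2 _ (hy w ▸ (h5 w hw).2) (by linarith [hy w, (h5 w hw).1])).le
    · intro w hw k e
      simp only [shf, fw, hy]
      rw [e, P.out_int (Or.inr rfl)]
      exact (k4 _ (hy w ▸ (h5 w hw).1) (by linarith [hy w, (h5 w hw).2])).le
  exfalso
  obtain ⟨c11, c12⟩ := abs_lt.1 (not_le.1 c1)
  obtain ⟨c21, c22⟩ := abs_lt.1 (not_le.1 c2)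
  obtain ⟨a11, a12⟩ := (η u').2.2
  obtain ⟨a21, a22⟩ := (η v').2.2
  have b1 := abs_lt.1 (P.near5 (x := (η v').1) (y := (η u').1)
    (abs_lt.2 ⟨by linarith, by linarith⟩))
  have b2 := abs_lt.1 (P.near5 (x := (η v').1 + -d * y v') (y := (η u').1 + -d * y u')
    (abs_lt.2 ⟨by linarith, by linarith⟩))
  rw [← h4, ← abs_of_pos d0, ← abs_mul, le_abs] at w1
  rcases w1 with w | w <;> linarith [b1.1, b1.2, b2.1, b2.2]

theorem thin {ε : ℝ} (hε : 0 < ε) : ∃ d₀ : ℝ, 0 < d₀ ∧ ∀ d, d₀ ≤ d → ∀ (ι : Type)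
    [TopologicalSpace ι] [DiscreteTopology ι] [Finite ι] (c : C(ι × Circle, Phase L)),
    Injective c → (cylShift L d ∘ P.bil) '' range c = range c → ∀ (i : ι) (z w : Circle),
    (∀ g ∈ Ioo 0 π, (∀ φ, P.D φ g = 0) → ε ≤ |((c (i, z)).2 : ℝ) - g|) →
    |cot (c (i, z)).2 - cot (c (i, w)).2| < 10 * L / d := by
  obtain ⟨δ, δ0, hδ⟩ := P.strip (half_pos hε)
  have lp := P.lp
  have m0 : 0 < min δ (ε / 2) := lt_min δ0 (half_pos hε)
  have p0 : 0 < 10 * L / min δ (ε / 2) := by positivity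
  refine ⟨_, p0, fun d hd ι _ _ _ c inj hinv i z w far => ?_⟩
  have d0 : 0 < d := p0.trans_le hd
  have r0 : 0 < 10 * L / d := by positivity
  have r1 : 10 * L / d ≤ min δ (ε / 2) := by
    rw [div_le_iff₀ m0] at hd
    rw [div_le_iff₀ d0]
    linarith
  have r2 : 10 * L = d * (10 * L / d) := by field_simp
  generalize 10 * L / d = r at r0 r1 r2 ⊢
  have key : ∀ (a b : Ioo (0 : ℝ) π) (z w : Circle), cot a - cot b = r →
      (∀ g ∈ Ioo 0 π, (∀ φ, P.D φ g = 0) → ε / 2 ≤ |a - g|) →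
      (∀ g ∈ Ioo 0 π, (∀ φ, P.D φ g = 0) → ε / 2 ≤ |b - g|) →
      cot (c (i, z)).2 ≤ cot b → cot a ≤ cot (c (i, w)).2 → False := by
    intro a b z w e fa fb h1 h2
    have emb := (c.continuous.isClosedEmbedding inj).isInducing
    obtain ⟨F, hF, hc⟩ := cut (y := fun x => cot (c x).2)
      (continuous_cot.comp (continuous_snd.comp c.continuous)) (show cot b < cot a by linarith)
    obtain ⟨x₀, hx₀⟩ := QuotientAddGroup.mk_surjective (c (i, Circle.exp 0)).1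
    obtain ⟨σ, ⟨-, hσ⟩, -⟩ := (AddCircle.isCoveringMap_coe L).existsUnique_continuousMap_lifts
      (⟨fun t : ℝ => (c (i, Circle.exp t)).1, by fun_prop⟩ : C(ℝ, AddCircle L)) 0 x₀ hx₀
    have e1 : pj L ∘ (fun t : ℝ => (σ t, (c (i, Circle.exp t)).2)) =
        fun t => c (i, Circle.exp t) := funext fun t => Prod.ext (congrFun hσ t) rfl
    refine hδ d (range c) (c '' F) a b d0 hinv (hF.image c) ?_ fa fb (by rw [e, r2])
      (e ▸ r1.trans (min_le_left _ _)) _ ⟨fun t : ℝ => (σ t, (c (i, Circle.exp t)).2),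
        min (Complex.arg z) (Complex.arg w), max (Complex.arg z) (Complex.arg w), by fun_prop, ?_,
        rfl, ?_, ⟨Complex.arg z, ⟨min_le_left _ _, le_max_left _ _⟩, ?_⟩, Complex.arg w,
        ⟨min_le_right _ _, le_max_right _ _⟩, ?_⟩
    · rintro _ ⟨η, u, v, hη, -, rfl, sub, ⟨s, s1, s2⟩, t, t1, t2⟩
      have e2 := image_preimage_eq_of_subset sub
      obtain ⟨x, hx, e3⟩ := e2.ge (mem_image_of_mem _ s1)
      obtain ⟨x', hx', e4⟩ := e2.ge (mem_image_of_mem _ t1)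
      obtain ⟨q, q1, q2⟩ := hc _ (emb.isPreconnected_image.1 (e2.symm ▸
        isPreconnected_Icc.image _ (cpj.comp hη).continuousOn))
        ⟨x, hx, by rw [e3]; exact s2⟩ ⟨x', hx', by rw [e4]; exact t2⟩
      exact ⟨c q, q1, mem_image_of_mem c q2⟩
    · rw [e1]
      intro s hs t ht h
      refine Circle.exp_injOn_Icc ?_ hs ht (congrArg Prod.snd (inj h))
      linarith [max_le (Complex.arg_le_pi z) (Complex.arg_le_pi w),
        lt_min (Complex.neg_pi_lt_arg z) (Complex.neg_pi_lt_arg w)]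
    · rw [e1]
      rintro _ ⟨t, -, rfl⟩
      exact mem_range_self _
    · simpa only [Circle.exp_arg] using h1
    · simpa only [Circle.exp_arg] using h2
  have far' : ∀ a : Ioo (0 : ℝ) π, |cot a - cot (c (i, z)).2| ≤ r →
      ∀ g ∈ Ioo 0 π, (∀ φ, P.D φ g = 0) → ε / 2 ≤ |a - g| := fun a h g hg hD => by
    have h1 := (le_cot a.2 (c (i, z)).2.2).trans (h.trans (r1.trans (min_le_right _ _)))
    have h2 := abs_sub_le ((c (i, z)).2 : ℝ) a g
    rw [abs_sub_comm] at h1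
    linarith [far g hg hD]
  have f0 := far' (c (i, z)).2 (by simpa using r0.le)
  by_contra hn
  rcases le_abs.1 (not_lt.1 hn) with l | l
  · obtain ⟨b, hb⟩ := exists_cot (cot (c (i, z)).2 - r)
    exact key _ b w z (by linarith) f0 (far' b (by simp [hb, abs_of_pos r0])) (by linarith) le_rfl
  · obtain ⟨a, ha⟩ := exists_cot (cot (c (i, z)).2 + r)
    exact key a _ z w (by linarith) (far' a (by simp [ha, abs_of_pos r0])) f0 le_rfl (by linarith)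

theorem local_curves {ε : ℝ} (hε : 0 < ε) : ∃ d₀ : ℝ, ∀ d, d₀ ≤ d → ∀ c : C(Circle, Phase L),
    Injective c → ¬ c.Nullhomotopic → (cylShift L d ∘ P.bil) '' range c = range c →
    ∀ z, ∃ g : Ioo (0 : ℝ) π, (∀ x, (P.bil (x, g)).2 = g) ∧ |((c z).2 : ℝ) - g| < ε := by
  obtain ⟨d₁, h1⟩ := P.loops (half_pos hε)
  obtain ⟨d₂, d0, h2⟩ := P.thin hε
  refine ⟨max d₁ (max d₂ (10 * L / (ε / 2))), fun d hd c inj hc hinv z => ?_⟩
  simp only [max_le_iff] at hd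
  obtain ⟨w, g, hg, h3⟩ := h1 d hd.1 c hc hinv
  by_contra hn
  have e : range (c.comp (ContinuousMap.snd : C(Unit × Circle, Circle))) = range c :=
    Prod.snd_surjective.range_comp c
  have h4 := h2 d hd.2.1 Unit (c.comp ContinuousMap.snd)
    (inj.comp fun x y h => Prod.ext rfl h) (by rwa [e]) () z w fun g hg hD =>
      not_lt.1 fun h => hn ⟨⟨g, hg⟩, (P.pres ⟨g, hg⟩).2 hD, h⟩
  have h5 : 10 * L / d ≤ ε / 2 := by
    have := hd.2.2
    rw [div_le_iff₀ (half_pos hε)] at this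
    rw [div_le_iff₀ (d0.trans_le hd.2.1)]
    linarith
  have h6 := ((le_cot (c z).2.2 (c w).2.2).trans_lt h4).trans_le h5
  have h7 := abs_sub_le ((c z).2 : ℝ) (c w).2 g
  exact hn ⟨g, hg, by linarith⟩

theorem level_curve (p : Phase L) (h : ∀ x, (P.bil (x, p.2)).2 = p.2) (d : ℝ) :
    ∃ c : C(Circle, Phase L), Injective c ∧ ¬ c.Nullhomotopic ∧
      (cylShift L d ∘ P.bil) '' range c = range c ∧ p ∈ range c := by
  let E := AddCircle.homeomorphCircle P.lp.ne'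
  have e : range (fun z => (E.symm z, p.2) : Circle → Phase L) = {q | q.2 = p.2} := by
    refine Subset.antisymm (range_subset_iff.2 fun z => rfl) fun q hq => ⟨E q.1, ?_⟩
    exact Prod.ext (E.symm_apply_apply _) hq.symm
  refine ⟨⟨fun z => (E.symm z, p.2), by fun_prop⟩,
    fun x y h => E.symm.injective (congrArg Prod.fst h), fun hn => not_null ?_, ?_, ?_⟩
  · have := hn.comp_right ⟨fun q => E q.1, by fun_prop⟩
    convert this using 1
    ext z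
    simp
  · exact e ▸ P.level p.2 h d
  · exact e.ge rfl

end Par

end Pool.Agent.MP_5d0005_an.Gn
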